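import Mathlib

/-!
# Inhomogeneous approximation with bounded coefficients
-/

set_option autoImplicit false

namespace Pool.Agent.U64.DP

theorem exists_den_gt {ξ : ℝ} (hξ : Irrational ξ) (N : ℕ) :
    ∃ q : ℚ, |ξ - q| < 1 / (q.den : ℝ) ^ 2 ∧ N < q.den := by
  by_contra hcon
  push Not at hcon
  refine Real.infinite_rat_abs_sub_lt_one_div_den_sq_of_irrational hξ ?_
  set B : ℤ := ⌈(|ξ| + 1) * N⌉ with hB
  refine ((((Set.finite_Icc (-B) B).prod (Set.finite_Iic N)).image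
    (fun p : ℤ × ℕ => (p.1 : ℚ) / p.2)).subset ?_)
  intro q hq
  have h1 := hcon q hq
  have hd : (1 : ℝ) ≤ q.den := by exact_mod_cast q.pos
  have hq' : |ξ - q| < 1 / (q.den : ℝ) ^ 2 := hq
  have h2 : |(q : ℝ)| ≤ |ξ| + 1 := by
    have h3 : 1 / (q.den : ℝ) ^ 2 ≤ 1 := by
      rw [div_le_one (by positivity)]
      exact one_le_pow₀ hd
    have h4 : |(q : ℝ)| ≤ |ξ| + |ξ - q| := by
      have := abs_sub_abs_le_abs_sub (q : ℝ) ξ
      rw [abs_sub_comm] at this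
      linarith
    linarith
  have h5 : |(q.num : ℝ)| ≤ (|ξ| + 1) * N := by
    have h6 : (q.num : ℝ) = q * q.den := by
      have := Rat.mul_den_eq_num q
      exact_mod_cast this.symm
    rw [h6, abs_mul, abs_of_pos (by linarith : (0 : ℝ) < q.den)]
    exact mul_le_mul h2 (by exact_mod_cast h1) (by linarith) (by positivity)
  have h7 : |q.num| ≤ B := by
    have h8 := h5.trans (Int.le_ceil _)
    exact_mod_cast h8
  refine ⟨(q.num, q.den), ⟨Set.mem_Icc.2 (abs_le.1 h7), h1⟩, ?_⟩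
  simpa using Rat.num_div_den q

theorem inhom {ξ : ℝ} {q : ℚ} (hq : |ξ - q| < 1 / (q.den : ℝ) ^ 2) (β : ℝ) :
    ∃ n₁ n₂ : ℤ, 0 ≤ n₂ ∧ n₂ < q.den ∧ |β + n₁ + n₂ * ξ| < 2 / q.den := by
  have hD : (0 : ℝ) < q.den := by exact_mod_cast q.pos
  have hDz : (0 : ℤ) < q.den := by exact_mod_cast q.pos
  set r : ℤ := round (-(β * q.den)) with hr
  have hr2 : |β * q.den + r| ≤ 1 / 2 := by
    have := abs_sub_round (-(β * q.den))
    rw [← hr] at this
    have e : β * q.den + r = -(-(β * q.den) - r) := by ring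
    rw [e, abs_neg]
    exact this
  have hcop : IsCoprime q.num (q.den : ℤ) := by
    rw [Int.isCoprime_iff_gcd_eq_one]
    have := q.reduced
    rw [Int.gcd, Int.natAbs_natCast]
    exact this
  obtain ⟨u, w, huw⟩ := hcop
  set n₂ : ℤ := (u * r) % q.den with hn₂
  have h1 : 0 ≤ n₂ := Int.emod_nonneg _ hDz.ne'
  have h2 : n₂ < q.den := Int.emod_lt_of_pos _ hDz
  obtain ⟨k, hk⟩ : ∃ k : ℤ, n₂ * q.num = r + k * q.den := by
    have h3 : n₂ = u * r - q.den * (u * r / q.den) := by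
      rw [hn₂]; have := Int.emod_add_mul_ediv (u * r) q.den; linarith
    refine ⟨-(w * r) - (u * r / q.den) * q.num, ?_⟩
    rw [h3]
    have h4 : u * q.num = 1 - w * q.den := by linarith
    calc (u * r - q.den * (u * r / q.den)) * q.num
        = r * (u * q.num) - q.den * (u * r / q.den) * q.num := by ring
      _ = _ := by rw [h4]; ring
  refine ⟨-k, n₂, h1, h2, ?_⟩
  have h5 : (q : ℝ) * q.den = q.num := by exact_mod_cast Rat.mul_den_eq_num q
  have h6 : (n₂ : ℝ) * q.num = r + k * q.den := by exact_mod_cast hk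
  have h7 : β + ((-k : ℤ) : ℝ) + n₂ * ξ = (β * q.den + r) / q.den + n₂ * (ξ - q) := by
    field_simp
    push_cast
    have : (n₂ : ℝ) * (q * q.den) = r + k * q.den := by rw [h5, h6]
    linear_combination this
  rw [h7]
  have h8 : |(β * q.den + r) / q.den| ≤ (1 / 2) / q.den := by
    rw [abs_div, abs_of_pos hD]
    exact div_le_div_of_nonneg_right hr2 hD.le
  have h9 : |(n₂ : ℝ) * (ξ - q)| ≤ 1 / q.den := by
    rw [abs_mul]
    have h10 : |(n₂ : ℝ)| ≤ q.den := by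
      rw [abs_of_nonneg (by exact_mod_cast h1)]
      exact_mod_cast h2.le
    calc |(n₂ : ℝ)| * |ξ - q| ≤ q.den * (1 / (q.den : ℝ) ^ 2) :=
          mul_le_mul h10 hq.le (abs_nonneg _) hD.le
      _ = 1 / q.den := by field_simp
  calc |(β * q.den + r) / q.den + n₂ * (ξ - q)|
      ≤ |(β * q.den + r) / q.den| + |n₂ * (ξ - q)| := abs_add_le _ _
    _ ≤ (1 / 2) / q.den + 1 / q.den := add_le_add h8 h9
    _ < 2 / q.den := by
        rw [← add_div]
        exact div_lt_div_of_pos_right (by norm_num) hD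

/-- For infinitely many `m` all `β` in `[0, 1]` are approximated modulo `ℤ + ℤ ξ` up to `η / b ^ m` with
coefficients `O(b ^ m)`. -/
theorem approx {ξ : ℝ} (hξ : Irrational ξ) {b : ℕ} (hb : 2 ≤ b) {η : ℝ} (hη : 0 < η) :
    ∃ C : ℝ, 0 < C ∧ ∀ m₀ : ℕ, ∃ m : ℕ, m₀ ≤ m ∧ ∀ β : ℝ, 0 ≤ β → β ≤ 1 →
      ∃ n₁ n₂ : ℤ, |(n₁ : ℝ)| ≤ C * b ^ m ∧ |(n₂ : ℝ)| ≤ C * b ^ m ∧
        |β + n₁ + n₂ * ξ| < η / b ^ m := by
  have hb1 : (1 : ℝ) < b := by exact_mod_cast hb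
  refine ⟨2 * b / η * (|ξ| + 1) + 3 + η, by positivity, fun m₀ => ?_⟩
  obtain ⟨q, hq, hq2⟩ := exists_den_gt hξ (⌈2 * (b : ℝ) ^ m₀ / η⌉₊)
  have hD : (0 : ℝ) < q.den := by exact_mod_cast q.pos
  -- the largest `m` with `2 b ^ m ≤ η D`
  have hbig : 2 * (b : ℝ) ^ m₀ ≤ η * q.den := by
    have h1 : 2 * (b : ℝ) ^ m₀ / η ≤ q.den := (Nat.le_ceil _).trans (by exact_mod_cast hq2.le)
    rw [div_le_iff₀ hη] at h1; linarith
  obtain ⟨m, hm0, hm1, hm2⟩ : ∃ m, m₀ ≤ m ∧ 2 * (b : ℝ) ^ m ≤ η * q.den ∧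
      η * q.den < 2 * (b : ℝ) ^ (m + 1) := by
    by_contra hcon
    push Not at hcon
    have h1 : ∀ j, 2 * (b : ℝ) ^ (m₀ + j) ≤ η * q.den := by
      intro j
      induction j with
      | zero => simpa using hbig
      | succ j ih => exact hcon (m₀ + j) (by omega) ih
    obtain ⟨j, hj⟩ := pow_unbounded_of_one_lt (η * q.den) hb1
    have h2 := h1 j
    have h3 : (b : ℝ) ^ j ≤ (b : ℝ) ^ (m₀ + j) := pow_le_pow_right₀ hb1.le (by omega)
    have h4 : 0 < (b : ℝ) ^ (m₀ + j) := by positivity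
    linarith
  refine ⟨m, hm0, fun β hβ0 hβ1 => ?_⟩
  obtain ⟨n₁, n₂, h1, h2, h3⟩ := inhom hq β
  have hbm : (1 : ℝ) ≤ (b : ℝ) ^ m := one_le_pow₀ hb1.le
  have hDle : (q.den : ℝ) ≤ 2 * b / η * b ^ m := by
    rw [div_mul_eq_mul_div, le_div_iff₀ hη]
    rw [pow_succ] at hm2
    nlinarith
  have hn2 : |(n₂ : ℝ)| ≤ 2 * b / η * b ^ m := by
    rw [abs_of_nonneg (by exact_mod_cast h1)]
    have : (n₂ : ℝ) ≤ q.den := by exact_mod_cast h2.le
    exact this.trans hDle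
  have hsmall : |β + n₁ + n₂ * ξ| < η / b ^ m := by
    refine h3.trans_le ?_
    rw [div_le_div_iff₀ hD (by positivity)]
    linarith
  have hn1 : |(n₁ : ℝ)| ≤ η + 1 + (2 * b / η * b ^ m) * |ξ| := by
    have e : (n₁ : ℝ) = (β + n₁ + n₂ * ξ) - β - n₂ * ξ := by ring
    rw [e]
    have h4 : |(β + n₁ + n₂ * ξ) - β - n₂ * ξ| ≤ |β + n₁ + n₂ * ξ| + |β| + |n₂ * ξ| := by
      refine (abs_sub _ _).trans ?_
      have := abs_sub (β + n₁ + n₂ * ξ) β
      linarith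
    have h5 : |(n₂ : ℝ) * ξ| ≤ (2 * b / η * b ^ m) * |ξ| := by
      rw [abs_mul]; exact mul_le_mul_of_nonneg_right hn2 (abs_nonneg _)
    have h6 : |β| ≤ 1 := by rwa [abs_of_nonneg hβ0]
    have h7 : η / b ^ m ≤ η := div_le_self hη.le hbm
    linarith
  have hpos : 0 ≤ 2 * (b : ℝ) / η := by positivity
  refine ⟨n₁, n₂, hn1.trans ?_, hn2.trans ?_, hsmall⟩
  · have h8 : 0 ≤ 2 * (b : ℝ) / η * b ^ m := by positivity
    have h9 : (3 + η) ≤ (3 + η) * b ^ m := le_mul_of_one_le_right (by positivity) hbm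
    nlinarith
  · have h8 : 0 ≤ 2 * (b : ℝ) / η * b ^ m * |ξ| := by positivity
    have h9 : 0 ≤ (3 + η) * (b : ℝ) ^ m := by positivity
    nlinarith

end Pool.Agent.U64.DP
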