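import Pool.Agent.H691R3.Places

/-!
# Heights and truncated counting functions of the points `(x : 1 - x : -1)`
-/

set_option autoImplicit false

namespace Pool.Agent.U64.DP

open NumberField IsDedekindDomain Pool.Agent.H691R3

variable {K : Type} [Field K] [NumberField K]

/-- the maximum of the values of the coordinates of `(x : 1 - x : -1)` -/
noncomputable def mx (f : K → ℝ) (x : K) : ℝ := max (f x) (max (f (1 - x)) (f (-1)))

/-- the minimum of the values of the coordinates of `(x : 1 - x : -1)` -/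
noncomputable def mn (f : K → ℝ) (x : K) : ℝ := min (f x) (min (f (1 - x)) (f (-1)))

theorem fv_neg_one (v : HeightOneSpectrum (𝓞 K)) : fv v (-1) = 1 := by
  rw [AbsoluteValue.map_neg, map_one]

theorem mx_ge_one (v : HeightOneSpectrum (𝓞 K)) (x : K) : 1 ≤ mx (fv v) x := by
  unfold mx
  rw [fv_neg_one]
  exact (le_max_right _ _).trans (le_max_right _ _)

theorem mn_le_one (v : HeightOneSpectrum (𝓞 K)) (x : K) : mn (fv v) x ≤ 1 := by
  unfold mn
  rw [fv_neg_one]
  exact (min_le_right _ _).trans (min_le_right _ _)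

theorem mn_pos (v : HeightOneSpectrum (𝓞 K)) {x : K} (h0 : x ≠ 0) (h1 : x ≠ 1) :
    0 < mn (fv v) x := by
  unfold mn
  rw [fv_neg_one]
  exact lt_min ((fv v).pos h0) (lt_min ((fv v).pos (sub_ne_zero.2 h1.symm)) one_pos)

theorem exc_finite {x : K} (h0 : x ≠ 0) (h1 : x ≠ 1) :
    {v : HeightOneSpectrum (𝓞 K) | fv v x ≠ 1 ∨ fv v (1 - x) ≠ 1}.Finite :=
  ((fv_support_finite h0).union (fv_support_finite (sub_ne_zero.2 h1.symm))).subset
    (fun _ hv => hv)

theorem mx_eq_one {v : HeightOneSpectrum (𝓞 K)} {x : K} (h : fv v x = 1) :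
    mx (fv v) x = 1 := by
  refine le_antisymm ?_ (mx_ge_one v x)
  unfold mx
  rw [fv_neg_one, h]
  refine max_le le_rfl (max_le ?_ le_rfl)
  have := fv_na v 1 (-x)
  rw [AbsoluteValue.map_neg, map_one, h, max_self] at this
  rwa [← sub_eq_add_neg] at this

theorem mn_eq {v : HeightOneSpectrum (𝓞 K)} {x : K} (h : fv v x = 1) :
    mn (fv v) x = fv v (1 - x) := by
  have h1 : fv v (1 - x) ≤ 1 := by
    have := fv_na v 1 (-x)
    rw [AbsoluteValue.map_neg, map_one, h, max_self] at this
    rwa [← sub_eq_add_neg] at this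
  unfold mn
  rw [fv_neg_one, h, min_eq_left h1, min_eq_right h1]

/-- the contribution of `v` to the counting function truncated at `k` -/
noncomputable def cn (k : ℕ) (v : HeightOneSpectrum (𝓞 K)) (x : K) : ℝ :=
  min (k * Real.log (Nv v)) (Real.log (mx (fv v) x / mn (fv v) x))

theorem cn_le (k : ℕ) (v : HeightOneSpectrum (𝓞 K)) (x : K) : cn k v x ≤ k * Real.log (Nv v) :=
  min_le_left _ _

theorem cn_nonneg (k : ℕ) (v : HeightOneSpectrum (𝓞 K)) {x : K} (h0 : x ≠ 0) (h1 : x ≠ 1) :
    0 ≤ cn k v x := by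
  refine le_min (mul_nonneg (Nat.cast_nonneg _) (log_Nv_pos v).le) (Real.log_nonneg ?_)
  rw [one_le_div (mn_pos v h0 h1)]
  exact (mn_le_one v x).trans (mx_ge_one v x)

theorem cn_eq_zero (k : ℕ) {v : HeightOneSpectrum (𝓞 K)} {x : K} (h : fv v x = 1)
    (h1 : fv v (1 - x) = 1) : cn k v x = 0 := by
  unfold cn
  rw [mx_eq_one h, mn_eq h, h1, div_one, Real.log_one]
  exact min_eq_right (mul_nonneg (Nat.cast_nonneg _) (log_Nv_pos v).le)

/-- The lower bound for the height by the counting function. -/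
theorem height_ge {x : K} (hx0 : x ≠ 0) (hx1 : x ≠ 1) (k : ℕ)
    (T0 : Finset (HeightOneSpectrum (𝓞 K))) (hT0 : ∀ v, v ∉ T0 → fv v x = 1)
    (v0 : HeightOneSpectrum (𝓞 K)) (hv0 : v0 ∉ T0) (M : ℕ)
    (hM : fv v0 (1 - x) ≤ ((Nv v0)⁻¹) ^ M) :
    ∑ᶠ v : HeightOneSpectrum (𝓞 K), cn k v x + ((M : ℝ) - k) * Real.log (Nv v0) -
        k * ∑ v ∈ T0, Real.log (Nv v) ≤
      ∑ w : InfinitePlace K, (w.mult : ℝ) * Real.log (mx w x) +
        ∑ᶠ v : HeightOneSpectrum (𝓞 K), Real.log (mx (fv v) x) := by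
  classical
  have h1x : (1 : K) - x ≠ 0 := sub_ne_zero.2 hx1.symm
  set F : Finset (HeightOneSpectrum (𝓞 K)) := (exc_finite hx0 hx1).toFinset ∪ insert v0 T0 with hF
  have hFout : ∀ v, v ∉ F → fv v x = 1 ∧ fv v (1 - x) = 1 := by
    intro v hv
    rw [hF, Finset.mem_union, not_or, Set.Finite.mem_toFinset] at hv
    have := hv.1
    simp only [Set.mem_ofPred_eq] at this
    push Not at this
    exact this
  have s1 : ∑ᶠ v : HeightOneSpectrum (𝓞 K), cn k v x = ∑ v ∈ F, cn k v x := by
    refine finsum_eq_sum_of_support_subset _ ?_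
    intro v hv
    by_contra hcon
    obtain ⟨e1, e2⟩ := hFout v hcon
    exact hv (cn_eq_zero k e1 e2)
  have s2 : ∑ᶠ v : HeightOneSpectrum (𝓞 K), Real.log (mx (fv v) x) =
      ∑ v ∈ F, Real.log (mx (fv v) x) := by
    refine finsum_eq_sum_of_support_subset _ ?_
    intro v hv
    by_contra hcon
    obtain ⟨e1, e2⟩ := hFout v hcon
    exact hv (by beta_reduce; rw [mx_eq_one e1, Real.log_one])
  have s3 : ∑ᶠ v : HeightOneSpectrum (𝓞 K), Real.log (fv v (1 - x)) =
      ∑ v ∈ F, Real.log (fv v (1 - x)) := by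
    refine finsum_eq_sum_of_support_subset _ ?_
    intro v hv
    by_contra hcon
    obtain ⟨e1, e2⟩ := hFout v hcon
    exact hv (by beta_reduce; rw [e2, Real.log_one])
  have pf := log_product_formula h1x
  rw [s3] at pf
  rw [s1, s2]
  have hinf : ∑ w : InfinitePlace K, (w.mult : ℝ) * Real.log (w (1 - x)) ≤
      ∑ w : InfinitePlace K, (w.mult : ℝ) * Real.log (mx w x) := by
    refine Finset.sum_le_sum fun w _ => mul_le_mul_of_nonneg_left ?_ (Nat.cast_nonneg _)
    exact Real.log_le_log (InfinitePlace.pos_iff.2 h1x)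
      ((le_max_left _ _).trans (le_max_right _ _))
  have key : ∑ v ∈ F, (cn k v x + ((if v = v0 then ((M : ℝ) - k) * Real.log (Nv v0) else 0) -
      (if v ∈ T0 then k * Real.log (Nv v) else 0))) ≤
      ∑ v ∈ F, (Real.log (mx (fv v) x) - Real.log (fv v (1 - x))) := by
    refine Finset.sum_le_sum fun v _ => ?_
    have hφ : 0 ≤ Real.log (mx (fv v) x) - Real.log (fv v (1 - x)) := by
      rw [sub_nonneg]
      exact Real.log_le_log ((fv v).pos h1x) ((le_max_left _ _).trans (le_max_right _ _))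
    by_cases hT : v ∈ T0
    · have hne : v ≠ v0 := fun h => hv0 (h ▸ hT)
      rw [if_neg hne, if_pos hT]
      have := cn_le k v x
      linarith
    · rw [if_neg hT, sub_zero]
      by_cases hv : v = v0
      · subst hv
        rw [if_pos rfl]
        have h1 := cn_le k v x
        have h2 : Real.log (fv v (1 - x)) ≤ -(M * Real.log (Nv v)) := by
          have := Real.log_le_log ((fv v).pos h1x) hM
          rwa [Real.log_pow, Real.log_inv, mul_neg] at this
        have h3 : 0 ≤ Real.log (mx (fv v) x) := Real.log_nonneg (mx_ge_one v x)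
        linarith
      · rw [if_neg hv, add_zero]
        have e := hT0 v hT
        unfold cn
        rw [mx_eq_one e, mn_eq e, Real.log_one, one_div, Real.log_inv, zero_sub]
        exact min_le_right _ _
  rw [Finset.sum_add_distrib, Finset.sum_sub_distrib, Finset.sum_sub_distrib] at key
  rw [Finset.sum_ite_eq' F v0, if_pos (by rw [hF]; simp)] at key
  have e4 : ∑ v ∈ F, (if v ∈ T0 then (k : ℝ) * Real.log (Nv v) else 0) =
      k * ∑ v ∈ T0, Real.log (Nv v) := by
    rw [← Finset.sum_filter, Finset.mul_sum]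
    refine Finset.sum_congr ?_ fun _ _ => rfl
    ext v
    rw [Finset.mem_filter, hF]
    constructor
    · exact fun h => h.2
    · exact fun h => ⟨Finset.mem_union_right _ (Finset.mem_insert_of_mem h), h⟩
  rw [e4] at key
  linarith

theorem w_natCast (w : InfinitePlace K) (D : ℕ) : w (D : K) = D := by
  rw [← w.norm_embedding_eq, map_natCast, Complex.norm_natCast]

/-- The upper bound for the height by a denominator. -/
theorem height_le {x : K} (hx0 : x ≠ 0) (hx1 : x ≠ 1) {D : ℕ} (hD : D ≠ 0)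
    (hDx : ∀ v : HeightOneSpectrum (𝓞 K), fv v x * fv v (D : K) ≤ 1) {A : ℝ} (hA : 0 ≤ A)
    (hw : ∀ w : InfinitePlace K, w x ≤ A) :
    ∑ w : InfinitePlace K, (w.mult : ℝ) * Real.log (mx w x) +
        ∑ᶠ v : HeightOneSpectrum (𝓞 K), Real.log (mx (fv v) x) ≤
      Module.finrank ℚ K * (Real.log D + Real.log (1 + A)) := by
  classical
  have hDK : (D : K) ≠ 0 := Nat.cast_ne_zero.2 hD
  set F : Finset (HeightOneSpectrum (𝓞 K)) := (exc_finite hx0 hx1).toFinset ∪
    (fv_support_finite hDK).toFinset with hF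
  have hFout : ∀ v, v ∉ F → fv v x = 1 ∧ fv v (D : K) = 1 := by
    intro v hv
    rw [hF, Finset.mem_union, not_or, Set.Finite.mem_toFinset, Set.Finite.mem_toFinset] at hv
    have h1 := hv.1
    have h2 := hv.2
    simp only [Set.mem_ofPred_eq] at h1 h2
    push Not at h1 h2
    exact ⟨h1.1, h2⟩
  have s2 : ∑ᶠ v : HeightOneSpectrum (𝓞 K), Real.log (mx (fv v) x) =
      ∑ v ∈ F, Real.log (mx (fv v) x) := by
    refine finsum_eq_sum_of_support_subset _ ?_
    intro v hv
    by_contra hcon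
    obtain ⟨e1, e2⟩ := hFout v hcon
    exact hv (by beta_reduce; rw [mx_eq_one e1, Real.log_one])
  have s3 : ∑ᶠ v : HeightOneSpectrum (𝓞 K), Real.log (fv v (D : K)) =
      ∑ v ∈ F, Real.log (fv v (D : K)) := by
    refine finsum_eq_sum_of_support_subset _ ?_
    intro v hv
    by_contra hcon
    obtain ⟨e1, e2⟩ := hFout v hcon
    exact hv (by beta_reduce; rw [e2, Real.log_one])
  have pf := log_product_formula hDK
  rw [s3] at pf
  rw [s2]
  have hsum : ∑ w : InfinitePlace K, (w.mult : ℝ) = Module.finrank ℚ K := by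
    rw [← InfinitePlace.sum_mult_eq (K := K)]
    push_cast
    rfl
  have e1 : ∑ w : InfinitePlace K, (w.mult : ℝ) * Real.log (w (D : K)) =
      Module.finrank ℚ K * Real.log D := by
    rw [← hsum, Finset.sum_mul]
    exact Finset.sum_congr rfl fun w _ => by rw [w_natCast]
  rw [e1] at pf
  have h1 : ∑ w : InfinitePlace K, (w.mult : ℝ) * Real.log (mx w x) ≤
      Module.finrank ℚ K * Real.log (1 + A) := by
    rw [← hsum, Finset.sum_mul]
    refine Finset.sum_le_sum fun w _ => mul_le_mul_of_nonneg_left ?_ (Nat.cast_nonneg _)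
    have hneg : w (-1) = 1 := by
      rw [← w.norm_embedding_eq, map_neg, map_one, norm_neg, norm_one]
    refine Real.log_le_log ?_ ?_
    · exact lt_of_lt_of_le (by rw [hneg]; exact one_pos)
        ((le_max_right _ _).trans (le_max_right _ _) : w (-1) ≤ mx w x)
    · unfold mx
      rw [hneg]
      refine max_le ?_ (max_le ?_ ?_)
      · linarith [hw w]
      · have h2 : w (1 - x) ≤ w 1 + w x := by
          rw [← w.norm_embedding_eq, ← w.norm_embedding_eq, ← w.norm_embedding_eq, map_sub]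
          exact norm_sub_le _ _
        rw [map_one] at h2
        linarith [hw w]
      · linarith
  have h2 : ∑ v ∈ F, Real.log (mx (fv v) x) ≤ ∑ v ∈ F, -Real.log (fv v (D : K)) := by
    refine Finset.sum_le_sum fun v _ => ?_
    have hDpos := (fv v).pos hDK
    rw [← Real.log_inv]
    refine Real.log_le_log (by linarith [mx_ge_one v x]) ?_
    rw [le_inv_comm₀ (by linarith [mx_ge_one v x]) hDpos]
    have hD1 : fv v (D : K) ≤ 1 := by
      have := FinitePlace.norm_le_one K v (D : 𝓞 K)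
      have e : algebraMap (𝓞 K) K (D : 𝓞 K) = (D : K) := map_natCast _ _
      rw [e] at this
      exact this
    have hmx : mx (fv v) x ≤ max (fv v x) 1 := by
      unfold mx
      rw [fv_neg_one]
      refine max_le (le_max_left _ _) (max_le ?_ (le_max_right _ _))
      have := fv_na v 1 (-x)
      rw [AbsoluteValue.map_neg, map_one, ← sub_eq_add_neg, max_comm] at this
      exact this
    rw [le_inv_comm₀ hDpos (by linarith [mx_ge_one v x])]
    refine hmx.trans (max_le ?_ ?_)
    · rw [← one_div, le_div_iff₀ hDpos]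
      exact hDx v
    · exact (one_le_inv₀ hDpos).2 hD1
  rw [Finset.sum_neg_distrib] at h2
  rw [mul_add]
  linarith

/-- a gap between different values -/
theorem gap (v : HeightOneSpectrum (𝓞 K)) {a b : K} (ha : a ≠ 0) (hb : b ≠ 0)
    (h : fv v a < fv v b) : Nv v * fv v a ≤ fv v b := by
  obtain ⟨n, hn⟩ := fv_zpow v ha
  obtain ⟨m, hm⟩ := fv_zpow v hb
  have hN : 1 < Nv v := by linarith [two_le_Nv v]
  rw [hn, hm] at h ⊢
  have h1 : n < m := (zpow_lt_zpow_iff_right₀ hN).1 h
  rw [← zpow_one_add₀ (by linarith)]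
  exact zpow_le_zpow_right₀ hN.le (by omega)

theorem mx_mem (v : HeightOneSpectrum (𝓞 K)) {x : K} (h0 : x ≠ 0) (h1 : x ≠ 1) :
    ∃ a : K, a ≠ 0 ∧ mx (fv v) x = fv v a := by
  unfold mx
  rcases max_choice (fv v x) (max (fv v (1 - x)) (fv v (-1))) with h | h
  · exact ⟨x, h0, h⟩
  · rw [h]
    rcases max_choice (fv v (1 - x)) (fv v (-1)) with h | h
    · exact ⟨1 - x, sub_ne_zero.2 h1.symm, h⟩
    · exact ⟨-1, by simp, h⟩

theorem mn_mem (v : HeightOneSpectrum (𝓞 K)) {x : K} (h0 : x ≠ 0) (h1 : x ≠ 1) :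
    ∃ a : K, a ≠ 0 ∧ mn (fv v) x = fv v a := by
  unfold mn
  rcases min_choice (fv v x) (min (fv v (1 - x)) (fv v (-1))) with h | h
  · exact ⟨x, h0, h⟩
  · rw [h]
    rcases min_choice (fv v (1 - x)) (fv v (-1)) with h | h
    · exact ⟨1 - x, sub_ne_zero.2 h1.symm, h⟩
    · exact ⟨-1, by simp, h⟩

/-- The radical is at most the counting function. -/
theorem rad_le {x : K} (hx0 : x ≠ 0) (hx1 : x ≠ 1) {k : ℕ} (hk : 1 ≤ k) :
    ∑ᶠ (v : HeightOneSpectrum (𝓞 K)) (_ : ¬ (fv v x = fv v (1 - x) ∧ fv v (1 - x) = fv v (-1))),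
      Real.log (Nv v) ≤ ∑ᶠ v : HeightOneSpectrum (𝓞 K), cn k v x := by
  classical
  set F : Finset (HeightOneSpectrum (𝓞 K)) := (exc_finite hx0 hx1).toFinset with hF
  have hFout : ∀ v, v ∉ F → fv v x = 1 ∧ fv v (1 - x) = 1 := by
    intro v hv
    rw [hF, Set.Finite.mem_toFinset] at hv
    simp only [Set.mem_ofPred_eq] at hv
    push Not at hv
    exact hv
  have s1 : ∑ᶠ v : HeightOneSpectrum (𝓞 K), cn k v x = ∑ v ∈ F, cn k v x := by
    refine finsum_eq_sum_of_support_subset _ ?_
    intro v hv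
    by_contra hcon
    obtain ⟨e1, e2⟩ := hFout v hcon
    exact hv (cn_eq_zero k e1 e2)
  have s2 : ∑ᶠ (v : HeightOneSpectrum (𝓞 K))
      (_ : ¬ (fv v x = fv v (1 - x) ∧ fv v (1 - x) = fv v (-1))), Real.log (Nv v) =
      ∑ v ∈ F, if ¬ (fv v x = fv v (1 - x) ∧ fv v (1 - x) = fv v (-1)) then
        Real.log (Nv v) else 0 := by
    rw [finsum_congr (fun v => finsum_eq_if (p := ¬ (fv v x = fv v (1 - x) ∧
      fv v (1 - x) = fv v (-1))) (x := Real.log (Nv v)))]
    refine finsum_eq_sum_of_support_subset _ ?_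
    intro v hv
    by_contra hcon
    obtain ⟨e1, e2⟩ := hFout v hcon
    refine hv ?_
    beta_reduce
    rw [e1, e2, fv_neg_one]
    simp
  rw [s1, s2]
  refine Finset.sum_le_sum fun v _ => ?_
  by_cases hc : ¬ (fv v x = fv v (1 - x) ∧ fv v (1 - x) = fv v (-1))
  · rw [if_pos hc]
    obtain ⟨a, ha, hma⟩ := mx_mem v hx0 hx1
    obtain ⟨b, hb, hmb⟩ := mn_mem v hx0 hx1
    have hlt : mn (fv v) x < mx (fv v) x := by
      by_contra hcon
      push Not at hcon
      apply hc
      have a1 : fv v x ≤ mx (fv v) x := le_max_left _ _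
      have a2 : fv v (1 - x) ≤ mx (fv v) x := (le_max_left _ _).trans (le_max_right _ _)
      have a3 : fv v (-1) ≤ mx (fv v) x := (le_max_right _ _).trans (le_max_right _ _)
      have b1 : mn (fv v) x ≤ fv v x := min_le_left _ _
      have b2 : mn (fv v) x ≤ fv v (1 - x) := (min_le_right _ _).trans (min_le_left _ _)
      have b3 : mn (fv v) x ≤ fv v (-1) := (min_le_right _ _).trans (min_le_right _ _)
      constructor <;> linarith
    have h3 : Nv v * mn (fv v) x ≤ mx (fv v) x := by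
      rw [hma, hmb] at hlt ⊢
      exact gap v hb ha hlt
    have h4 : Real.log (Nv v) ≤ Real.log (mx (fv v) x / mn (fv v) x) := by
      refine Real.log_le_log (by linarith [two_le_Nv v]) ?_
      rw [le_div_iff₀ (mn_pos v hx0 hx1)]
      exact h3
    refine le_min ?_ h4
    have h5 : (1 : ℝ) ≤ k := by exact_mod_cast hk
    nlinarith [log_Nv_pos v]
  · rw [if_neg hc]
    exact cn_nonneg k v hx0 hx1

end Pool.Agent.U64.DP
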