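import Pool.Agent.U64.DP.Lift
import Pool.Agent.U64.DP.Dio
import Pool.Agent.U64.DP.Ht

/-!
# The construction of the points
-/

set_option autoImplicit false

namespace Pool.Agent.U64.DP

open NumberField IsDedekindDomain Pool.Agent.H691R3 Filter

variable {K : Type} [Field K] [NumberField K]

/-- integers which are small at finitely many places -/
theorem exists_Q (S : Finset (HeightOneSpectrum (𝓞 K))) {δ : ℝ} (hδ : 0 < δ) :
    ∃ Q : ℕ, 1 ≤ Q ∧ 1 / δ < Q ∧ ∀ v ∈ S, fv v (Q : K) < δ := by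
  classical
  set B : ℕ := 2 * ∏ v ∈ S, Ideal.absNorm v.asIdeal with hB
  have hpos : ∀ v ∈ S, 0 < Ideal.absNorm v.asIdeal := fun v _ => by
    have := NumberField.HeightOneSpectrum.one_lt_absNorm v
    omega
  have hB2 : 2 ≤ B := by
    have : 0 < ∏ v ∈ S, Ideal.absNorm v.asIdeal := Finset.prod_pos hpos
    omega
  have hBv : ∀ v ∈ S, fv v (B : K) < 1 := by
    intro v hv
    have h1 : ((B : ℕ) : 𝓞 K) ∈ v.asIdeal := by
      rw [hB, ← Finset.mul_prod_erase S _ hv]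
      push_cast
      refine v.asIdeal.mul_mem_left _ (v.asIdeal.mul_mem_right _ ?_)
      exact Ideal.absNorm_mem v.asIdeal
    have h2 := (fv_lt_iff v _).2 h1
    have e : (((B : ℕ) : 𝓞 K) : K) = (B : K) := map_natCast (algebraMap (𝓞 K) K) _
    rwa [e] at h2
  have h1 : ∀ᶠ n : ℕ in atTop, ∀ v ∈ S, fv v (B : K) ^ n < δ := by
    rw [Filter.eventually_all_finset]
    intro v hv
    exact (tendsto_pow_atTop_nhds_zero_of_lt_one ((fv v).nonneg _) (hBv v hv)).eventually_lt_const hδ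
  have h2 : ∀ᶠ n : ℕ in atTop, 1 / δ < (B : ℝ) ^ n :=
    (tendsto_pow_atTop_atTop_of_one_lt (by exact_mod_cast hB2)).eventually_gt_atTop _
  obtain ⟨n, hn1, hn2⟩ := (h1.and h2).exists
  refine ⟨B ^ n, Nat.one_le_pow _ _ (by omega), by exact_mod_cast hn2, fun v hv => ?_⟩
  push_cast
  rw [map_pow]
  exact hn1 v hv

/-- the logarithms of coprime integers have an irrational ratio -/
theorem irr {g₁ g₂ : ℕ} (h1 : 1 < g₁) (h2 : 1 < g₂) (hc : Nat.Coprime g₁ g₂) :
    Irrational (Real.log g₂ / Real.log g₁) := by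
  have hl1 : 0 < Real.log g₁ := Real.log_pos (by exact_mod_cast h1)
  have hl2 : 0 < Real.log g₂ := Real.log_pos (by exact_mod_cast h2)
  rintro ⟨r, hr⟩
  have hrpos : 0 < r := by
    have : (0 : ℝ) < r := by rw [hr]; positivity
    exact_mod_cast this
  have hnum : 0 < r.num := Rat.num_pos.2 hrpos
  have e1 : (r : ℝ) * r.den = r.num := by exact_mod_cast Rat.mul_den_eq_num r
  have e2 : (r.den : ℝ) * Real.log g₂ = r.num * Real.log g₁ := by
    rw [← e1, hr]; field_simp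
  have e3 : (r.num : ℝ) = (r.num.toNat : ℝ) := by
    have : ((r.num.toNat : ℤ) : ℝ) = (r.num : ℝ) := by rw [Int.toNat_of_nonneg hnum.le]
    rw [← this]; push_cast; rfl
  rw [e3, ← Real.log_pow, ← Real.log_pow] at e2
  have e4 : (g₂ : ℝ) ^ r.den = (g₁ : ℝ) ^ r.num.toNat :=
    Real.log_injOn_pos (Set.mem_Ioi.2 (by positivity)) (Set.mem_Ioi.2 (by positivity)) e2
  have e5 : g₂ ^ r.den = g₁ ^ r.num.toNat := by exact_mod_cast e4
  have e6 : Nat.Coprime (g₁ ^ r.num.toNat) (g₂ ^ r.den) := Nat.Coprime.pow _ _ hc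
  rw [e5, Nat.coprime_self] at e6
  have e7 : r.num.toNat ≠ 0 := by omega
  have := Nat.one_lt_pow e7 h1
  omega

/-- integers congruent to `1` modulo `Q`, with a quotient near `1`, in a given class modulo `q` -/
theorem exists_AA {q Q : ℕ} (hq : q.Prime) (hqQ : ¬ q ∣ Q) (hQ : 1 ≤ Q) {b : ℤ}
    (hb : ¬ (q : ℤ) ∣ b) {η : ℝ} (hη : 0 < η) :
    ∃ α α' : ℕ, (q : ℤ) ∣ ((1 + Q * α : ℕ) : ℤ) * b - ((1 + Q * α' : ℕ) : ℤ) ∧ q ∣ α' ∧
      α' ≤ α ∧ Real.log ((1 + Q * α : ℕ) : ℝ) - Real.log ((1 + Q * α' : ℕ) : ℝ) < η := by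
  have hqz := Nat.prime_iff_prime_int.1 hq
  have hqpos : (0 : ℤ) < q := by exact_mod_cast hq.pos
  have hcop : IsCoprime (q : ℤ) ((Q : ℤ) * b) := by
    refine (Prime.coprime_iff_not_dvd hqz).2 fun h => ?_
    rcases hqz.dvd_or_dvd h with h | h
    · exact hqQ (by exact_mod_cast h)
    · exact hb h
  obtain ⟨w, u, huw⟩ := hcop
  obtain ⟨s, hs, hsq⟩ : ∃ s : ℕ, s < q ∧ (q : ℤ) ∣ (1 + Q * s) * b - 1 := by
    refine ⟨((u * (1 - b)) % q).toNat, ?_, ?_⟩
    · have h1 := Int.emod_lt_of_pos (u * (1 - b)) hqpos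
      have h2 := Int.emod_nonneg (u * (1 - b)) hqpos.ne'
      omega
    · rw [Int.toNat_of_nonneg (Int.emod_nonneg _ hqpos.ne')]
      have h3 : (u * (1 - b)) % q = u * (1 - b) - q * (u * (1 - b) / q) := by
        have := Int.emod_add_mul_ediv (u * (1 - b)) q; linarith
      rw [h3]
      have h4 : u * (Q * b) = 1 - w * q := by linarith
      refine ⟨-(w * (1 - b)) - (u * (1 - b) / q) * (Q * b), ?_⟩
      calc (1 + (Q : ℤ) * (u * (1 - b) - q * (u * (1 - b) / q))) * b - 1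
          = b - 1 + (1 - b) * (u * (Q * b)) - q * (u * (1 - b) / q) * (Q * b) := by ring
        _ = _ := by rw [h4]; ring
  obtain ⟨M, hM⟩ := exists_nat_gt (1 / η)
  have hM0 : (0 : ℝ) < M := lt_trans (by positivity) hM
  refine ⟨q * M + s, q * M, ?_, dvd_mul_right _ _, by omega, ?_⟩
  · obtain ⟨c, hc⟩ := hsq
    refine ⟨c + Q * M * b - Q * M, ?_⟩
    push_cast
    linear_combination hc
  · have hA' : (0 : ℝ) < ((1 + Q * (q * M) : ℕ) : ℝ) := by positivity
    have hA : (0 : ℝ) < ((1 + Q * (q * M + s) : ℕ) : ℝ) := by positivity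
    rw [← Real.log_div hA.ne' hA'.ne']
    have h1 : ((1 + Q * (q * M + s) : ℕ) : ℝ) / ((1 + Q * (q * M) : ℕ) : ℝ) =
        1 + Q * s / ((1 + Q * (q * M) : ℕ) : ℝ) := by
      rw [div_eq_iff hA'.ne', add_mul, one_mul, div_mul_cancel₀ _ hA'.ne']
      push_cast
      ring
    rw [h1]
    have h2 : (Q : ℝ) * s / ((1 + Q * (q * M) : ℕ) : ℝ) < η := by
      rw [div_lt_iff₀ hA']
      have hsr : (s : ℝ) ≤ q := by exact_mod_cast hs.le
      have hQr : (1 : ℝ) ≤ Q := by exact_mod_cast hQ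
      have hqr : (0 : ℝ) < q := by exact_mod_cast hq.pos
      have h3 : 1 < η * M := by rwa [div_lt_iff₀ hη, mul_comm] at hM
      push_cast
      have h4 : (Q : ℝ) * s ≤ Q * q := mul_le_mul_of_nonneg_left hsr (by linarith)
      have h5 : (Q : ℝ) * q * 1 < Q * q * (η * M) := mul_lt_mul_of_pos_left h3 (by positivity)
      have h6 : η * (1 + Q * (q * M)) = η + Q * q * (η * M) := by ring
      rw [h6]
      linarith
    have h7 : 0 ≤ (Q : ℝ) * s / ((1 + Q * (q * M) : ℕ) : ℝ) := by positivity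
    have h8 := Real.log_le_sub_one_of_pos
      (show (0 : ℝ) < 1 + Q * s / ((1 + Q * (q * M) : ℕ) : ℝ) by linarith)
    linarith

theorem zpow_mul_natAbs_le {c : ℝ} (hc0 : 0 < c) (hc1 : c ≤ 1) (a : ℤ) :
    c ^ a * c ^ a.natAbs ≤ 1 := by
  rw [← zpow_natCast, ← zpow_add₀ hc0.ne']
  have h : 0 ≤ a + (a.natAbs : ℤ) := by omega
  obtain ⟨n, hn⟩ := Int.eq_ofNat_of_zero_le h
  rw [hn, zpow_natCast]
  exact pow_le_one₀ hc0.le hc1

theorem w_ratCast (w : InfinitePlace K) (r : ℚ) : w (r : K) = |(r : ℝ)| := by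
  rw [← w.norm_embedding_eq, map_ratCast, Complex.norm_ratCast]

end Pool.Agent.U64.DP
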