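import Mathlib

/-!
# Elements close to one for a non-archimedean absolute value
-/

set_option autoImplicit false

namespace Pool.Agent.U64.DP

section near
variable {K : Type*} [Field K] {f : AbsoluteValue K ℝ}
  (hna : ∀ a b, f (a + b) ≤ max (f a) (f b))
include hna

theorem add_le_of {ε : ℝ} {a b : K} (ha : f a ≤ ε) (hb : f b ≤ ε) : f (a + b) ≤ ε :=
  (hna a b).trans (max_le ha hb)

theorem sub_le_of {ε : ℝ} {a b : K} (ha : f a ≤ ε) (hb : f b ≤ ε) : f (a - b) ≤ ε := by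
  rw [sub_eq_add_neg]
  exact add_le_of hna ha (by rwa [AbsoluteValue.map_neg])

theorem near_mul {ε : ℝ} (hε : ε ≤ 1) {x y : K} (hx : f (x - 1) ≤ ε) (hy : f (y - 1) ≤ ε) :
    f (x * y - 1) ≤ ε := by
  have e : x * y - 1 = (x - 1) * (y - 1) + (x - 1) + (y - 1) := by ring
  rw [e]
  refine add_le_of hna (add_le_of hna ?_ hx) hy
  rw [map_mul]
  have h0 := f.nonneg (x - 1)
  have h1 := f.nonneg (y - 1)
  calc f (x - 1) * f (y - 1) ≤ ε * 1 := mul_le_mul hx (hy.trans hε) h1 (h0.trans hx)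
    _ = ε := mul_one _

theorem eq_one_of_near {x : K} (hx : f (x - 1) < 1) : f x = 1 := by
  refine le_antisymm ?_ ?_
  · have := hna (x - 1) 1
    rw [sub_add_cancel, map_one] at this
    exact this.trans (max_le hx.le le_rfl)
  · by_contra hcon
    push Not at hcon
    have h1 : f (1 : K) ≤ max (f x) (f (x - 1)) := by
      have := hna x (-(x - 1))
      rw [AbsoluteValue.map_neg] at this
      have e : x + -(x - 1) = 1 := by ring
      rwa [e] at this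
    rw [map_one] at h1
    exact absurd h1 (not_le.2 (max_lt hcon hx))

theorem near_inv {ε : ℝ} (hε : ε < 1) {x : K} (hx : f (x - 1) ≤ ε) : f (x⁻¹ - 1) ≤ ε := by
  have h1 := eq_one_of_near hna (hx.trans_lt hε)
  have h0 : x ≠ 0 := by
    rintro rfl
    rw [map_zero] at h1
    exact zero_ne_one h1
  have e : x⁻¹ - 1 = -(x - 1) * x⁻¹ := by field_simp; ring
  rw [e, map_mul, AbsoluteValue.map_neg, map_inv₀, h1, inv_one, mul_one]
  exact hx

theorem near_pow {ε : ℝ} (hε0 : 0 ≤ ε) (hε : ε ≤ 1) {x : K} (hx : f (x - 1) ≤ ε) (n : ℕ) :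
    f (x ^ n - 1) ≤ ε := by
  induction n with
  | zero => rw [pow_zero, sub_self, map_zero]; exact hε0
  | succ n ih => rw [pow_succ]; exact near_mul hna hε ih hx

theorem near_zpow {ε : ℝ} (hε0 : 0 ≤ ε) (hε : ε < 1) {x : K} (hx : f (x - 1) ≤ ε) (n : ℤ) :
    f (x ^ n - 1) ≤ ε := by
  obtain ⟨k, rfl | rfl⟩ := n.eq_nat_or_neg
  · rw [zpow_natCast]; exact near_pow hna hε0 hε.le hx k
  · rw [zpow_neg, zpow_natCast]; exact near_inv hna hε (near_pow hna hε0 hε.le hx k)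

end near

/-- the powers of `1 + q Q` -/
theorem pow_expand {q Q : ℕ} (hq : q.Prime) (hq2 : q ≠ 2) (hQ : ¬ q ∣ Q) (i : ℕ) :
    ∃ w : ℤ, (1 + (q : ℤ) * Q) ^ q ^ i = 1 + (q : ℤ) ^ (i + 1) * w ∧ ¬ (q : ℤ) ∣ w := by
  have hqz := Nat.prime_iff_prime_int.1 hq
  have h1 : (q : ℤ) ∣ (1 + (q : ℤ) * Q) - 1 := ⟨Q, by ring⟩
  have h2 : ¬ (q : ℤ) ∣ (1 + (q : ℤ) * Q) := by
    intro h
    have h3 : (q : ℤ) ∣ 1 := by
      have := dvd_sub h h1
      simpa using this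
    exact hqz.not_unit (isUnit_of_dvd_one h3)
  have h3 := Int.emultiplicity_pow_sub_pow hq (hq.odd_of_ne_two hq2) h1 h2 (q ^ i)
  have h4 : emultiplicity (q : ℤ) ((1 + (q : ℤ) * Q) - 1) = 1 := by
    rw [show (1 + (q : ℤ) * Q) - 1 = q * Q by ring]
    have : ((1 : ℕ) : ℕ∞) = 1 := rfl
    rw [← this, emultiplicity_eq_coe]
    refine ⟨by rw [pow_one]; exact dvd_mul_right _ _, ?_⟩
    rw [pow_succ, pow_one]
    intro h
    have h5 := (mul_dvd_mul_iff_left hqz.ne_zero).1 h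
    exact hQ (by exact_mod_cast h5)
  have h5 : emultiplicity q (q ^ i) = i := by
    rw [emultiplicity_eq_coe]
    exact ⟨dvd_rfl, fun h => absurd ((Nat.pow_dvd_pow_iff_le_right hq.one_lt).1 h) (by omega)⟩
  rw [one_pow, h4, h5] at h3
  have h6 : emultiplicity (q : ℤ) ((1 + (q : ℤ) * Q) ^ q ^ i - 1) = ((i + 1 : ℕ) : ℕ∞) := by
    rw [h3]; push_cast; rw [add_comm]
  rw [emultiplicity_eq_coe] at h6
  obtain ⟨⟨w, hw⟩, h7⟩ := h6
  refine ⟨w, by linarith, fun h => h7 ?_⟩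
  rw [hw, pow_succ (q : ℤ) (i + 1)]
  exact mul_dvd_mul_left _ h

end Pool.Agent.U64.DP
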