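import Pool.Agent.U64.DP.Prime
import Pool.Agent.U64.DP.Near

/-!
# Powers of `1 + q Q` reach all classes modulo powers of a degree one prime
-/

set_option autoImplicit false

namespace Pool.Agent.U64.DP

open NumberField IsDedekindDomain Pool.Agent.H691R3

variable {K : Type} [Field K] [NumberField K]

theorem fv_intCast_le (v : HeightOneSpectrum (𝓞 K)) (n : ℤ) : fv v (n : K) ≤ 1 := by
  have := fv_int_le v (n : 𝓞 K)
  simpa using this

theorem fv_natCast_le (v : HeightOneSpectrum (𝓞 K)) (n : ℕ) : fv v (n : K) ≤ 1 := by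
  have := fv_intCast_le v (n : ℤ)
  simpa using this

theorem lift {v : HeightOneSpectrum (𝓞 K)} {q : ℕ} (h : Good v q) {Q : ℕ} (hQ : ¬ q ∣ Q) {z : K}
    (hz : fv v (z - 1) < 1) (m : ℕ) :
    ∃ a : ℕ, a < q ^ m ∧ fv v ((1 + (q : K) * Q) ^ a * z - 1) ≤ ((q : ℝ)⁻¹) ^ (m + 1) := by
  have hna := fv_na v
  have hq1 : 1 < q := h.prime.one_lt
  have hqr : (1 : ℝ) < q := by exact_mod_cast hq1
  have hε0 : (0 : ℝ) < (q : ℝ)⁻¹ := by positivity
  have hε1 : (q : ℝ)⁻¹ ≤ 1 := inv_le_one_of_one_le₀ hqr.le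
  have hq0 : ((q : ℕ) : K) ≠ 0 := by exact_mod_cast h.prime.ne_zero
  have hqz := Nat.prime_iff_prime_int.1 h.prime
  induction m with
  | zero =>
    refine ⟨0, by simp, ?_⟩
    rw [pow_zero, one_mul, zero_add, pow_one]
    exact fv_le_inv h hz
  | succ m ih =>
    obtain ⟨a, ha, hz'⟩ := ih
    set z' : K := (1 + (q : K) * Q) ^ a * z with hz'def
    obtain ⟨w, hw, hqw⟩ := pow_expand h.prime h.odd hQ m
    obtain ⟨s, hs⟩ : ∃ s : ℤ, fv v ((z' - 1) / (q : K) ^ (m + 1) - s) < 1 := by
      refine exists_int_sub_lt h ?_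
      rw [map_div₀, map_pow, fv_q h]
      rw [div_le_one (by positivity)]
      exact hz'
    have hs' := fv_le_inv h hs
    -- the exponent
    obtain ⟨t, ht, htw⟩ : ∃ t : ℕ, t < q ∧ (q : ℤ) ∣ s + t * w := by
      have hcop : IsCoprime (q : ℤ) w := (Prime.coprime_iff_not_dvd hqz).2 hqw
      obtain ⟨x, y, hxy⟩ := hcop
      have hqpos : (0 : ℤ) < q := by exact_mod_cast h.prime.pos
      refine ⟨((-(s * y)) % q).toNat, ?_, ?_⟩
      · have h1 := Int.emod_lt_of_pos (-(s * y)) hqpos
        have h2 := Int.emod_nonneg (-(s * y)) hqpos.ne'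
        omega
      · rw [Int.toNat_of_nonneg (Int.emod_nonneg _ hqpos.ne')]
        have h3 : (-(s * y)) % q = -(s * y) - q * (-(s * y) / q) := by
          have := Int.emod_add_mul_ediv (-(s * y)) q; linarith
        rw [h3]
        have h4 : y * w = 1 - x * q := by linarith
        refine ⟨s * x - (-(s * y) / q) * w, ?_⟩
        calc s + (-(s * y) - q * (-(s * y) / q)) * w
            = s - s * (y * w) - q * (-(s * y) / q) * w := by ring
          _ = _ := by rw [h4]; ring
    obtain ⟨c, hc⟩ := htw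
    obtain ⟨k, hk⟩ := Polynomial.powAddExpansion (1 : ℤ) ((q : ℤ) ^ (m + 1) * w) t
    refine ⟨a + q ^ m * t, ?_, ?_⟩
    · calc a + q ^ m * t < q ^ m + q ^ m * t := by omega
        _ = q ^ m * (t + 1) := by ring
        _ ≤ q ^ m * q := Nat.mul_le_mul_left _ ht
        _ = q ^ (m + 1) := (pow_succ _ _).symm
    · set X : K := (q : K) ^ (m + 1) * w with hX
      have hG : (1 + (q : K) * Q) ^ (q ^ m * t) = 1 + t * X + k * X ^ 2 := by
        rw [pow_mul]
        have h1 : (1 + (q : K) * Q) ^ q ^ m = 1 + X := by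
          have := congrArg (Int.cast : ℤ → K) hw
          push_cast at this
          rw [this]
        rw [h1]
        have := congrArg (Int.cast : ℤ → K) hk
        push_cast at this
        rw [this]
        ring
      have e : (1 + (q : K) * Q) ^ (a + q ^ m * t) * z - 1 =
          (q : K) ^ (m + 1) * ((z' - 1) / (q : K) ^ (m + 1) - s) + (q : K) ^ (m + 2) * c +
            (t * X * (z' - 1) + k * X ^ 2 * z') := by
        have hc' : (s : K) + t * w = q * c := by
          have := congrArg (Int.cast : ℤ → K) hc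
          push_cast at this
          exact this
        rw [pow_add, hG]
        have e1 : (q : K) ^ (m + 1) * ((z' - 1) / (q : K) ^ (m + 1) - s) =
            z' - 1 - (q : K) ^ (m + 1) * s := by
          field_simp
        rw [e1]
        have e2 : (q : K) ^ (m + 2) * c = (q : K) ^ (m + 1) * ((s : K) + t * w) := by
          rw [hc']; ring
        rw [e2, hX, hz'def]
        ring
      rw [e]
      have hX1 : fv v X ≤ ((q : ℝ)⁻¹) ^ (m + 1) := by
        rw [hX, map_mul, map_pow, fv_q h]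
        exact mul_le_of_le_one_right (by positivity) (fv_intCast_le v w)
      have hz1 : fv v z' = 1 := by
        refine eq_one_of_near hna (hz'.trans_lt ?_)
        exact pow_lt_one₀ hε0.le (inv_lt_one_of_one_lt₀ hqr) (by omega)
      refine add_le_of hna (add_le_of hna ?_ ?_) (add_le_of hna ?_ ?_)
      · rw [map_mul, map_pow, fv_q h, pow_succ _ (m + 1)]
        exact mul_le_mul_of_nonneg_left hs' (by positivity)
      · rw [map_mul, map_pow, fv_q h]
        exact mul_le_of_le_one_right (by positivity) (fv_intCast_le v c)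
      · rw [map_mul, map_mul]
        calc fv v (t : K) * fv v X * fv v (z' - 1)
            ≤ 1 * ((q : ℝ)⁻¹) ^ (m + 1) * ((q : ℝ)⁻¹) ^ (m + 1) := by
              refine mul_le_mul (mul_le_mul (fv_natCast_le v t) hX1 ((fv v).nonneg _) (by norm_num))
                hz' ((fv v).nonneg _) (by positivity)
          _ = ((q : ℝ)⁻¹) ^ (m + 1 + (m + 1)) := by ring
          _ ≤ ((q : ℝ)⁻¹) ^ (m + 1 + 1) := pow_le_pow_of_le_one hε0.le hε1 (by omega)
      · rw [map_mul, map_mul, map_pow, hz1, mul_one]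
        calc fv v (k : K) * fv v X ^ 2
            ≤ 1 * (((q : ℝ)⁻¹) ^ (m + 1)) ^ 2 := by
              refine mul_le_mul (fv_intCast_le v k) (pow_le_pow_left₀ ((fv v).nonneg _) hX1 2)
                (by positivity) (by norm_num)
          _ = ((q : ℝ)⁻¹) ^ ((m + 1) * 2) := by rw [one_mul, pow_mul]
          _ ≤ ((q : ℝ)⁻¹) ^ (m + 1 + 1) := pow_le_pow_of_le_one hε0.le hε1 (by omega)

/-- the `q ^ m`-th powers of an integer congruent to `1` modulo `q` -/
theorem pow_near {v : HeightOneSpectrum (𝓞 K)} {q : ℕ} (h : Good v q) (c m : ℕ) :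
    fv v ((1 + (q : K) * c) ^ q ^ m - 1) ≤ ((q : ℝ)⁻¹) ^ (m + 1) := by
  obtain ⟨w, hw⟩ : ∃ w : ℤ, (1 + (q : ℤ) * c) ^ q ^ m = 1 + (q : ℤ) ^ (m + 1) * w := by
    have h1 : ((q : ℤ) ^ (m + 1)) ∣ (1 + (q : ℤ) * c) ^ q ^ m - 1 ^ q ^ m := by
      have h2 : (q : ℤ) ∣ (1 + (q : ℤ) * c) - 1 := ⟨c, by ring⟩
      exact dvd_sub_pow_of_dvd_sub h2 m
    obtain ⟨w, hw⟩ := h1
    rw [one_pow] at hw
    exact ⟨w, by linarith⟩
  have h3 := congrArg (Int.cast : ℤ → K) hw
  push_cast at h3
  rw [h3, add_sub_cancel_left, map_mul, map_pow, fv_q h]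
  exact mul_le_of_le_one_right (by positivity) (fv_intCast_le v w)

end Pool.Agent.U64.DP
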