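import Pool.Agent.U64.DP.Constr

/-!
# The points near `y`
-/

set_option autoImplicit false

namespace Pool.Agent.U64.DP

open NumberField IsDedekindDomain Pool.Agent.H691R3 Filter

variable {K : Type} [Field K] [NumberField K]

/-- The logarithmic height of `(x : 1 - x : -1)` times the degree. -/
noncomputable def dh (x : K) : ℝ :=
  ∑ w : InfinitePlace K, (w.mult : ℝ) * Real.log (mx w x) +
    ∑ᶠ v : HeightOneSpectrum (𝓞 K), Real.log (mx (fv v) x)

theorem construct {y : K} (hy0 : y ≠ 0) (hy1 : y ≠ 1) (S : Finset (HeightOneSpectrum (𝓞 K)))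
    {δ : ℝ} (hδ : 0 < δ) :
    ∃ (T : Finset (HeightOneSpectrum (𝓞 K))) (v₀ : HeightOneSpectrum (𝓞 K)) (q : ℕ) (C : ℝ),
      v₀ ∉ T ∧ Good v₀ q ∧ 0 < C ∧ ∀ m₀ : ℕ, ∃ (m : ℕ) (ρ : ℚ), m₀ ≤ m ∧ 0 < ρ ∧
        (ρ : K) * y ≠ 0 ∧ (ρ : K) * y ≠ 1 ∧ (∀ v, v ∉ T → fv v ((ρ : K) * y) = 1) ∧
        (∀ v ∈ S, fv v ((ρ : K) * y - y) < δ) ∧ (∀ w : InfinitePlace K, w ((ρ : K) * y - y) < δ) ∧
        fv v₀ (1 - (ρ : K) * y) ≤ ((Nv v₀)⁻¹) ^ (m + 1) ∧
        dh ((ρ : K) * y) ≤ C * (q : ℝ) ^ (2 * m) := by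
  classical
  -- sizes
  obtain ⟨w₀⟩ : Nonempty (InfinitePlace K) := inferInstance
  have hw₀ : 0 < w₀ (y - 1) := InfinitePlace.pos_iff.2 (sub_ne_zero.2 hy1)
  set δ' : ℝ := min δ (w₀ (y - 1)) with hδ'
  have hδ'0 : 0 < δ' := lt_min hδ hw₀
  have hwn : ∀ (w : InfinitePlace K) (z : K), 0 ≤ w z := fun w z => by
    rw [← w.norm_embedding_eq]; exact norm_nonneg _
  set Y : ℝ := 1 + ∑ w : InfinitePlace K, w y with hY
  have hYw : ∀ w : InfinitePlace K, w y ≤ Y := fun w => by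
    have := Finset.single_le_sum (f := fun w : InfinitePlace K => w y)
      (fun w _ => hwn w y) (Finset.mem_univ w)
    rw [hY]; linarith
  have hY1 : 1 ≤ Y := by
    have := Finset.sum_nonneg (s := Finset.univ) (f := fun w : InfinitePlace K => w y)
      (fun w _ => hwn w y)
    rw [hY]; linarith
  set Z : ℝ := 1 + ∑ v ∈ S, fv v y with hZ
  have hZv : ∀ v ∈ S, fv v y ≤ Z := fun v hv => by
    have := Finset.single_le_sum (f := fun v : HeightOneSpectrum (𝓞 K) => fv v y)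
      (fun v _ => (fv v).nonneg y) hv
    rw [hZ]; linarith
  have hZ1 : 1 ≤ Z := by
    have := Finset.sum_nonneg (s := S) (f := fun v : HeightOneSpectrum (𝓞 K) => fv v y)
      (fun v _ => (fv v).nonneg y)
    rw [hZ]; linarith
  set η : ℝ := min (1 / 4) (δ' / (8 * Y)) with hη
  have hη0 : 0 < η := lt_min (by norm_num) (by positivity)
  have hη4 : η ≤ 1 / 4 := min_le_left _ _
  have hηY : 8 * (η * Y) ≤ δ' := by
    have h1 : η ≤ δ' / (8 * Y) := min_le_right _ _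
    rw [le_div_iff₀ (by positivity)] at h1
    linarith
  -- the modulus `Q`
  set δ'' : ℝ := min 1 (δ / Z) with hδ''
  have hδ''0 : 0 < δ'' := lt_min one_pos (by positivity)
  obtain ⟨Q, hQ1, -, hQ⟩ := exists_Q S hδ''0
  -- the prime
  have hsuppy := fv_support_finite hy0
  obtain ⟨v₀, q, hg, hqbig⟩ := exists_good K (Q + ∑ v ∈ hsuppy.toFinset, Ideal.absNorm v.asIdeal)
  have hq := hg.prime
  have hqz := Nat.prime_iff_prime_int.1 hq
  have hqQ : ¬ q ∣ Q := fun h => by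
    have := Nat.le_of_dvd hQ1 h
    omega
  have hy_v₀ : fv v₀ y = 1 := by
    by_contra hcon
    have h1 : v₀ ∈ hsuppy.toFinset := by rw [Set.Finite.mem_toFinset]; exact hcon
    have h2 := Finset.single_le_sum (f := fun v : HeightOneSpectrum (𝓞 K) =>
      Ideal.absNorm v.asIdeal) (fun _ _ => Nat.zero_le _) h1
    rw [hg.norm] at h2
    omega
  have hna : ∀ v : HeightOneSpectrum (𝓞 K), ∀ a b, fv v (a + b) ≤ max (fv v a) (fv v b) :=
    fun v => fv_na v
  have hq1r : (1 : ℝ) < q := by exact_mod_cast hq.one_lt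
  have hqi0 : (0 : ℝ) < (q : ℝ)⁻¹ := by positivity
  have hqi1 : (q : ℝ)⁻¹ < 1 := inv_lt_one_of_one_lt₀ hq1r
  -- the residue class of `y`
  obtain ⟨b, hb⟩ := exists_int_sub_lt hg hy_v₀.le
  have hqb : ¬ (q : ℤ) ∣ b := by
    rintro ⟨c, rfl⟩
    have h1 : fv v₀ (((q : ℤ) * c : ℤ) : K) < 1 := by
      push_cast
      rw [map_mul, fv_q hg]
      exact (mul_le_of_le_one_right hqi0.le (fv_intCast_le v₀ c)).trans_lt hqi1
    have h2 : fv v₀ y < 1 := by
      have := hna v₀ (y - (((q : ℤ) * c : ℤ) : K)) (((q : ℤ) * c : ℤ) : K)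
      rw [sub_add_cancel] at this
      exact this.trans_lt (max_lt hb h1)
    linarith
  obtain ⟨α, α', hAA, hqα', hαα, hlogA⟩ := exists_AA hq hqQ hQ1 hqb hη0
  set A : ℕ := 1 + Q * α with hA
  set A' : ℕ := 1 + Q * α' with hA'
  have hA0 : 0 < A := by omega
  have hA'0 : 0 < A' := by omega
  have hlogA0 : 0 ≤ Real.log A - Real.log A' := by
    rw [sub_nonneg]
    refine Real.log_le_log (by exact_mod_cast hA'0) ?_
    have : A' ≤ A := by
      rw [hA, hA']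
      exact Nat.add_le_add_left (Nat.mul_le_mul_left _ hαα) 1
    exact_mod_cast this
  -- the generators
  set g₁ : ℕ := 1 + q * Q with hg₁
  set g₂ : ℕ := 1 + q * (Q * g₁) with hg₂
  have hg₁1 : 1 < g₁ := by
    have := Nat.mul_pos hq.pos hQ1
    omega
  have hg₂1 : 1 < g₂ := by
    have := Nat.mul_pos hq.pos (Nat.mul_pos hQ1 (by omega : 0 < g₁))
    omega
  have hcop : Nat.Coprime g₁ g₂ := by
    have e : g₂ = 1 + (q * Q) * g₁ := by rw [hg₂]; ring
    rw [e]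
    have := (Nat.coprime_add_mul_right_right g₁ 1 (q * Q)).2 (Nat.coprime_one_right g₁)
    exact this
  have hirr := irr hg₁1 hg₂1 hcop
  set ξ : ℝ := Real.log g₂ / Real.log g₁ with hξ
  have hl1 : 0 < Real.log g₁ := Real.log_pos (by exact_mod_cast hg₁1)
  have hl2 : 0 < Real.log g₂ := Real.log_pos (by exact_mod_cast hg₂1)
  obtain ⟨C₁, hC₁, happ⟩ := approx hirr hq.two_le (div_pos hη0 hl1)
  -- absolute values of the integers
  have hA'K : (A' : K) ≠ 0 := Nat.cast_ne_zero.2 hA'0.ne'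
  have hAK : (A : K) ≠ 0 := Nat.cast_ne_zero.2 hA0.ne'
  have hg₁K : (g₁ : K) ≠ 0 := Nat.cast_ne_zero.2 (by omega)
  have hg₂K : (g₂ : K) ≠ 0 := Nat.cast_ne_zero.2 (by omega)
  have hA'v₀ : fv v₀ (A' : K) = 1 := by
    refine eq_one_of_near (hna v₀) ?_
    obtain ⟨c, hc⟩ := hqα'
    have e : (A' : K) - 1 = (q : K) * (Q * c : ℕ) := by rw [hA', hc]; push_cast; ring
    rw [e, map_mul, fv_q hg]
    exact (mul_le_of_le_one_right hqi0.le (fv_natCast_le v₀ _)).trans_lt hqi1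
  have hz : fv v₀ ((A : K) * y / A' - 1) < 1 := by
    have e : (A : K) * y / A' - 1 = (A * y - A') / A' := by field_simp
    rw [e, map_div₀, hA'v₀, div_one]
    have e2 : (A : K) * y - A' = A * (y - b) + (((A : ℤ) * b - A' : ℤ) : K) := by push_cast; ring
    rw [e2]
    refine (hna v₀ _ _).trans_lt (max_lt ?_ ?_)
    · rw [map_mul]
      exact (mul_le_of_le_one_left ((fv v₀).nonneg _) (fv_natCast_le v₀ A)).trans_lt hb
    · obtain ⟨c, hc⟩ := hAA
      rw [hc]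
      push_cast
      rw [map_mul, fv_q hg]
      exact (mul_le_of_le_one_right hqi0.le (fv_intCast_le v₀ c)).trans_lt hqi1
  -- the exceptional primes
  set T : Finset (HeightOneSpectrum (𝓞 K)) := (fv_support_finite hAK).toFinset ∪
    ((fv_support_finite hA'K).toFinset ∪ ((fv_support_finite hg₁K).toFinset ∪
      ((fv_support_finite hg₂K).toFinset ∪ hsuppy.toFinset))) with hT
  have hTout : ∀ v, v ∉ T → fv v (A : K) = 1 ∧ fv v (A' : K) = 1 ∧ fv v (g₁ : K) = 1 ∧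
      fv v (g₂ : K) = 1 ∧ fv v y = 1 := by
    intro v hv
    rw [hT] at hv
    simp only [Finset.mem_union, Set.Finite.mem_toFinset, Set.mem_ofPred_eq, not_or,
      not_not] at hv
    exact hv
  have hg₁v₀ : fv v₀ ((g₁ : K) - 1) ≤ (q : ℝ)⁻¹ := by
    have e : (g₁ : K) - 1 = (q : K) * Q := by rw [hg₁]; push_cast; ring
    rw [e, map_mul, fv_q hg]
    exact mul_le_of_le_one_right hqi0.le (fv_natCast_le v₀ _)
  have hg₂v₀ : fv v₀ ((g₂ : K) - 1) ≤ (q : ℝ)⁻¹ := by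
    have e : (g₂ : K) - 1 = (q : K) * (Q * g₁ : ℕ) := by rw [hg₂]; push_cast; ring
    rw [e, map_mul, fv_q hg]
    exact mul_le_of_le_one_right hqi0.le (fv_natCast_le v₀ _)
  have hAv₀ : fv v₀ (A : K) = 1 := by
    have h1 := eq_one_of_near (hna v₀) hz
    rwa [map_div₀, map_mul, hA'v₀, hy_v₀, mul_one, div_one] at h1
  have hv₀T : v₀ ∉ T := by
    rw [hT]
    simp only [Finset.mem_union, Set.Finite.mem_toFinset, Set.mem_ofPred_eq, not_or, not_not]
    exact ⟨hAv₀, hA'v₀, eq_one_of_near (hna v₀) (hg₁v₀.trans_lt hqi1),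
      eq_one_of_near (hna v₀) (hg₂v₀.trans_lt hqi1), hy_v₀⟩
  -- a denominator of `y`
  obtain ⟨W, hW0, hW⟩ : ∃ W : ℕ, W ≠ 0 ∧ ∀ v : HeightOneSpectrum (𝓞 K),
      fv v y * fv v (W : K) ≤ 1 := by
    obtain ⟨z, hz0, hz1⟩ := exists_integral_multiples ℤ ℚ ({y} : Finset K)
    have hz2 : IsIntegral ℤ (z • y) := hz1 y (Finset.mem_singleton_self y)
    refine ⟨z.natAbs, Int.natAbs_ne_zero.2 hz0, fun v => ?_⟩
    have h1 : fv v (z • y) ≤ 1 := fv_int_le v ⟨z • y, hz2⟩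
    have h2 : fv v ((z.natAbs : ℕ) : K) = fv v (z : K) := by
      rcases Int.natAbs_eq z with h | h
      · conv_rhs => rw [h]
        rw [Int.cast_natCast]
      · conv_rhs => rw [h]
        rw [Int.cast_neg, Int.cast_natCast, AbsoluteValue.map_neg]
    rw [h2, mul_comm, ← map_mul]
    rwa [zsmul_eq_mul] at h1
  set d : ℝ := (Module.finrank ℚ K : ℝ) with hd
  have hd1 : 1 ≤ d := by
    have : 1 ≤ Module.finrank ℚ K := Module.finrank_pos
    rw [hd]; exact_mod_cast this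
  have hlA' : 0 ≤ Real.log A' := Real.log_natCast_nonneg _
  have hlW : 0 ≤ Real.log W := Real.log_natCast_nonneg _
  have hlY : 0 ≤ Real.log (1 + (Y + δ)) := Real.log_nonneg (by linarith)
  refine ⟨T, v₀, q, d * (Real.log A' + (1 + C₁) * Real.log g₁ + C₁ * Real.log g₂ + Real.log W +
    Real.log (1 + (Y + δ))), hv₀T, hg, ?_, fun m₀ => ?_⟩
  · have : 0 < C₁ * Real.log g₂ := mul_pos hC₁ hl2
    have : 0 < (1 + C₁) * Real.log g₁ := mul_pos (by linarith) hl1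
    refine mul_pos (by linarith) ?_
    linarith
  obtain ⟨m, hm0, happm⟩ := happ m₀
  have hqm : (0 : ℝ) < (q : ℝ) ^ m := by positivity
  have hqm1 : (1 : ℝ) ≤ (q : ℝ) ^ m := one_le_pow₀ hq1r.le
  obtain ⟨a₀, ha₀, hlift⟩ := lift hg hqQ hz m
  obtain ⟨n₁, n₂, hn1, hn2, hn⟩ := happm (a₀ / (q : ℝ) ^ m) (by positivity) (by
    rw [div_le_one hqm]; exact_mod_cast ha₀.le)
  set a₁ : ℤ := a₀ + (q : ℤ) ^ m * n₁ with ha₁
  set a₂ : ℤ := (q : ℤ) ^ m * n₂ with ha₂
  set ρ : ℚ := (A : ℚ) / A' * (g₁ : ℚ) ^ a₁ * (g₂ : ℚ) ^ a₂ with hρ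
  have hA'q : (0 : ℚ) < A' := by exact_mod_cast hA'0
  have hAq : (0 : ℚ) < A := by exact_mod_cast hA0
  have hg₁q : (0 : ℚ) < g₁ := by exact_mod_cast (by omega : 0 < g₁)
  have hg₂q : (0 : ℚ) < g₂ := by exact_mod_cast (by omega : 0 < g₂)
  have hρ0 : 0 < ρ := by rw [hρ]; positivity
  have hρK : (ρ : K) = (A : K) / A' * (g₁ : K) ^ a₁ * (g₂ : K) ^ a₂ := by
    rw [hρ]; push_cast; rfl
  have hρK0 : (ρ : K) ≠ 0 := by exact_mod_cast hρ0.ne'
  -- the real size of `ρ`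
  have hlogρ : Real.log (ρ : ℝ) = (Real.log A - Real.log A') +
      (q : ℝ) ^ m * Real.log g₁ * (a₀ / (q : ℝ) ^ m + n₁ + n₂ * ξ) := by
    have e : (ρ : ℝ) = (A : ℝ) / A' * (g₁ : ℝ) ^ a₁ * (g₂ : ℝ) ^ a₂ := by
      rw [hρ]; push_cast; rfl
    have p1 : (0 : ℝ) < A := by exact_mod_cast hA0
    have p2 : (0 : ℝ) < A' := by exact_mod_cast hA'0
    have p3 : (0 : ℝ) < g₁ := by exact_mod_cast (by omega : 0 < g₁)
    have p4 : (0 : ℝ) < g₂ := by exact_mod_cast (by omega : 0 < g₂)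
    rw [e, Real.log_mul (by positivity) (by positivity), Real.log_mul (by positivity)
      (by positivity), Real.log_div p1.ne' p2.ne', Real.log_zpow, Real.log_zpow, ha₁, ha₂]
    push_cast
    rw [hξ]
    field_simp
    ring
  have habs : |Real.log (ρ : ℝ)| ≤ 2 * η := by
    rw [hlogρ]
    have h1 : |(q : ℝ) ^ m * Real.log g₁ * (a₀ / (q : ℝ) ^ m + n₁ + n₂ * ξ)| ≤ η := by
      rw [abs_mul, abs_of_pos (mul_pos hqm hl1)]
      have := mul_le_mul_of_nonneg_left hn.le (mul_pos hqm hl1).le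
      refine this.trans (le_of_eq ?_)
      field_simp
    refine (abs_add_le _ _).trans ?_
    rw [abs_of_nonneg hlogA0]
    linarith
  have hρ1 : |(ρ : ℝ) - 1| ≤ 4 * η := by
    have hρr : (0 : ℝ) < ρ := by exact_mod_cast hρ0
    have h1 := Real.abs_exp_sub_one_le (x := Real.log (ρ : ℝ)) (by linarith)
    rw [Real.exp_log hρr] at h1
    linarith
  have hwρ : ∀ w : InfinitePlace K, w ((ρ : K) * y - y) < δ' := by
    intro w
    have e : (ρ : K) * y - y = ((ρ - 1 : ℚ) : K) * y := by push_cast; ring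
    rw [e, map_mul, w_ratCast]
    push_cast
    calc |(ρ : ℝ) - 1| * w y ≤ (4 * η) * Y :=
          mul_le_mul hρ1 (hYw w) (hwn w y) (by linarith)
      _ = 4 * (η * Y) := by ring
      _ < δ' := by
          have : 0 < η * Y := mul_pos hη0 (by linarith)
          linarith
  have hx0 : (ρ : K) * y ≠ 0 := mul_ne_zero hρK0 hy0
  have hx1 : (ρ : K) * y ≠ 1 := by
    intro h
    have h1 := hwρ w₀
    rw [h] at h1
    have h2 : w₀ (1 - y) = w₀ (y - 1) := by
      rw [← w₀.norm_embedding_eq, ← w₀.norm_embedding_eq, map_sub, map_sub, norm_sub_rev]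
    rw [h2] at h1
    exact absurd h1 (not_lt.2 (min_le_right _ _))
  have hTunit : ∀ v, v ∉ T → fv v ((ρ : K) * y) = 1 := by
    intro v hv
    obtain ⟨e1, e2, e3, e4, e5⟩ := hTout v hv
    rw [hρK, map_mul, map_mul, map_mul, map_div₀, map_zpow₀, map_zpow₀, e1, e2, e3, e4, e5]
    simp
  have hSnear : ∀ v ∈ S, fv v ((ρ : K) * y - y) < δ := by
    intro v hv
    have hQv := hQ v hv
    have hQv1 : fv v (Q : K) < 1 := hQv.trans_le (min_le_left _ _)
    have hQ0 := (fv v).nonneg (Q : K)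
    have c1 : ∀ c : ℕ, fv v (((1 + Q * c : ℕ) : K) - 1) ≤ fv v (Q : K) := by
      intro c
      have e : ((1 + Q * c : ℕ) : K) - 1 = (Q : K) * (c : ℕ) := by push_cast; ring
      rw [e, map_mul]
      exact mul_le_of_le_one_right hQ0 (fv_natCast_le v _)
    have cA := c1 α
    have cA' := c1 α'
    have cg₁ : fv v ((g₁ : K) - 1) ≤ fv v (Q : K) := by
      have := c1 q
      rwa [mul_comm Q q] at this
    have cg₂ : fv v ((g₂ : K) - 1) ≤ fv v (Q : K) := by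
      have := c1 (q * g₁)
      have e : 1 + Q * (q * g₁) = g₂ := by rw [hg₂]; ring
      rwa [e] at this
    have hnear : fv v ((ρ : K) - 1) ≤ fv v (Q : K) := by
      rw [hρK, div_eq_mul_inv]
      exact near_mul (hna v) hQv1.le (near_mul (hna v) hQv1.le
        (near_mul (hna v) hQv1.le cA (near_inv (hna v) hQv1 cA'))
        (near_zpow (hna v) hQ0 hQv1 cg₁ _)) (near_zpow (hna v) hQ0 hQv1 cg₂ _)
    have e : (ρ : K) * y - y = ((ρ : K) - 1) * y := by ring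
    rw [e, map_mul]
    have h3 : fv v (Q : K) < δ / Z := hQv.trans_le (min_le_right _ _)
    rw [lt_div_iff₀ (by linarith)] at h3
    calc fv v ((ρ : K) - 1) * fv v y ≤ fv v (Q : K) * Z :=
          mul_le_mul hnear (hZv v hv) ((fv v).nonneg _) hQ0
      _ < δ := h3
  have hNv : Nv v₀ = q := by unfold Nv; rw [hg.norm]
  have hcong : fv v₀ (1 - (ρ : K) * y) ≤ ((Nv v₀)⁻¹) ^ (m + 1) := by
    rw [hNv]
    have hε1 : ((q : ℝ)⁻¹) ^ (m + 1) < 1 := pow_lt_one₀ hqi0.le hqi1 (by omega)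
    have hε0 : 0 ≤ ((q : ℝ)⁻¹) ^ (m + 1) := by positivity
    have e : (ρ : K) * y = ((1 + (q : K) * Q) ^ a₀ * ((A : K) * y / A')) *
        (((1 + (q : K) * Q) ^ q ^ m) ^ n₁) * (((1 + (q : K) * ((Q * g₁ : ℕ) : K)) ^ q ^ m) ^ n₂) := by
      have e1 : (1 : K) + (q : K) * Q = (g₁ : K) := by rw [hg₁]; push_cast; ring
      have e2 : (1 : K) + (q : K) * ((Q * g₁ : ℕ) : K) = (g₂ : K) := by rw [hg₂]; push_cast; ring
      rw [e1, e2, hρK, ha₁, ha₂, zpow_add₀ hg₁K, zpow_natCast, zpow_mul, zpow_mul]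
      have e3 : (g₁ : K) ^ ((q : ℤ) ^ m) = (g₁ : K) ^ q ^ m := by
        have : ((q : ℤ) ^ m) = ((q ^ m : ℕ) : ℤ) := by push_cast; rfl
        rw [this, zpow_natCast]
      have e4 : (g₂ : K) ^ ((q : ℤ) ^ m) = (g₂ : K) ^ q ^ m := by
        have : ((q : ℤ) ^ m) = ((q ^ m : ℕ) : ℤ) := by push_cast; rfl
        rw [this, zpow_natCast]
      rw [e3, e4]
      field_simp
    have h1 : fv v₀ ((ρ : K) * y - 1) ≤ ((q : ℝ)⁻¹) ^ (m + 1) := by
      rw [e]
      exact near_mul (hna v₀) hε1.le (near_mul (hna v₀) hε1.le hlift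
        (near_zpow (hna v₀) hε0 hε1 (pow_near hg Q m) _))
        (near_zpow (hna v₀) hε0 hε1 (pow_near hg (Q * g₁) m) _)
    have h2 : (1 : K) - (ρ : K) * y = -((ρ : K) * y - 1) := by ring
    rw [h2, AbsoluteValue.map_neg]
    exact h1
  refine ⟨m, ρ, hm0, hρ0, hx0, hx1, hTunit, hSnear, fun w => (hwρ w).trans_le (min_le_left _ _),
    hcong, ?_⟩
  -- the height
  set D : ℕ := A' * g₁ ^ a₁.natAbs * g₂ ^ a₂.natAbs * W with hD
  have hD0 : D ≠ 0 := by
    rw [hD]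
    exact mul_ne_zero (mul_ne_zero (mul_ne_zero hA'0.ne' (pow_ne_zero _ (by omega)))
      (pow_ne_zero _ (by omega))) hW0
  have hDx : ∀ v : HeightOneSpectrum (𝓞 K), fv v ((ρ : K) * y) * fv v (D : K) ≤ 1 := by
    intro v
    have e : fv v ((ρ : K) * y) * fv v (D : K) = fv v (A : K) *
        (fv v (g₁ : K) ^ a₁ * fv v (g₁ : K) ^ a₁.natAbs) *
        (fv v (g₂ : K) ^ a₂ * fv v (g₂ : K) ^ a₂.natAbs) * (fv v y * fv v (W : K)) := by
      have hne := ((fv v).pos hA'K).ne'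
      rw [hρK, hD]
      push_cast
      simp only [map_mul, map_div₀, map_zpow₀, map_pow]
      field_simp
    rw [e]
    have t1 : fv v (A : K) ≤ 1 := fv_natCast_le v A
    have t2 := zpow_mul_natAbs_le ((fv v).pos hg₁K) (fv_natCast_le v g₁) a₁
    have t3 := zpow_mul_natAbs_le ((fv v).pos hg₂K) (fv_natCast_le v g₂) a₂
    have t4 := hW v
    have p1 := (fv v).nonneg (A : K)
    have p2 : 0 ≤ fv v (g₁ : K) ^ a₁ * fv v (g₁ : K) ^ a₁.natAbs := by
      have := ((fv v).pos hg₁K).le; positivity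
    have p3 : 0 ≤ fv v (g₂ : K) ^ a₂ * fv v (g₂ : K) ^ a₂.natAbs := by
      have := ((fv v).pos hg₂K).le; positivity
    have p4 : 0 ≤ fv v y * fv v (W : K) := mul_nonneg ((fv v).nonneg _) ((fv v).nonneg _)
    exact mul_le_one₀ (mul_le_one₀ (mul_le_one₀ t1 p2 t2) p3 t3) p4 t4
  have hwx : ∀ w : InfinitePlace K, w ((ρ : K) * y) ≤ Y + δ := by
    intro w
    have h1 : w ((ρ : K) * y) ≤ w ((ρ : K) * y - y) + w y := by
      have := w.norm_embedding_eq ((ρ : K) * y)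
      rw [← w.norm_embedding_eq ((ρ : K) * y), ← w.norm_embedding_eq ((ρ : K) * y - y),
        ← w.norm_embedding_eq y]
      have e : w.embedding ((ρ : K) * y) = w.embedding ((ρ : K) * y - y) + w.embedding y := by
        rw [← map_add]; congr 1; ring
      rw [e]
      exact norm_add_le _ _
    have h2 := (hwρ w).trans_le (min_le_left _ _)
    linarith [hYw w]
  have hle := height_le hx0 hx1 hD0 hDx (A := Y + δ) (by linarith) hwx
  have hlogD : Real.log (D : ℝ) = Real.log A' + a₁.natAbs * Real.log g₁ +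
      a₂.natAbs * Real.log g₂ + Real.log W := by
    have p2 : (A' : ℝ) ≠ 0 := by exact_mod_cast hA'0.ne'
    have p3 : (g₁ : ℝ) ≠ 0 := by exact_mod_cast (by omega : g₁ ≠ 0)
    have p4 : (g₂ : ℝ) ≠ 0 := by exact_mod_cast (by omega : g₂ ≠ 0)
    have p5 : (W : ℝ) ≠ 0 := by exact_mod_cast hW0
    rw [hD]
    push_cast
    rw [Real.log_mul (by positivity) p5, Real.log_mul (by positivity) (by positivity),
      Real.log_mul p2 (by positivity), Real.log_pow, Real.log_pow]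
  have hqq : (q : ℝ) ^ (2 * m) = (q : ℝ) ^ m * (q : ℝ) ^ m := by rw [two_mul, pow_add]
  have hqq1 : (1 : ℝ) ≤ (q : ℝ) ^ (2 * m) := one_le_pow₀ hq1r.le
  have hqqm : (q : ℝ) ^ m ≤ (q : ℝ) ^ (2 * m) := by rw [hqq]; nlinarith
  have hb₁ : (a₁.natAbs : ℝ) ≤ (1 + C₁) * (q : ℝ) ^ (2 * m) := by
    have e : (a₁.natAbs : ℝ) = |(a₁ : ℝ)| := by rw [Nat.cast_natAbs, Int.cast_abs]
    rw [e, ha₁]
    push_cast
    calc |(a₀ : ℝ) + (q : ℝ) ^ m * n₁| ≤ |(a₀ : ℝ)| + |(q : ℝ) ^ m * n₁| := abs_add_le _ _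
      _ ≤ (q : ℝ) ^ m + (q : ℝ) ^ m * (C₁ * (q : ℝ) ^ m) := by
          refine add_le_add ?_ ?_
          · rw [abs_of_nonneg (Nat.cast_nonneg _)]; exact_mod_cast ha₀.le
          · rw [abs_mul, abs_of_pos hqm]
            exact mul_le_mul_of_nonneg_left hn1 hqm.le
      _ ≤ (1 + C₁) * (q : ℝ) ^ (2 * m) := by rw [hqq] at hqqm ⊢; nlinarith
  have hb₂ : (a₂.natAbs : ℝ) ≤ C₁ * (q : ℝ) ^ (2 * m) := by
    have e : (a₂.natAbs : ℝ) = |(a₂ : ℝ)| := by rw [Nat.cast_natAbs, Int.cast_abs]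
    rw [e, ha₂]
    push_cast
    rw [abs_mul, abs_of_pos hqm, hqq]
    have := mul_le_mul_of_nonneg_left hn2 hqm.le
    linarith
  have h5 : Real.log (D : ℝ) + Real.log (1 + (Y + δ)) ≤ (Real.log A' + (1 + C₁) * Real.log g₁ +
      C₁ * Real.log g₂ + Real.log W + Real.log (1 + (Y + δ))) * (q : ℝ) ^ (2 * m) := by
    rw [hlogD]
    have k1 := mul_le_mul_of_nonneg_right hb₁ hl1.le
    have k2 := mul_le_mul_of_nonneg_right hb₂ hl2.le
    have k3 := mul_le_mul_of_nonneg_left hqq1 hlA'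
    have k4 := mul_le_mul_of_nonneg_left hqq1 hlW
    have k5 := mul_le_mul_of_nonneg_left hqq1 hlY
    generalize (q : ℝ) ^ (2 * m) = X at k1 k2 k3 k4 k5 ⊢
    generalize Real.log (1 + (Y + δ)) = l5 at k5 ⊢
    generalize Real.log (A' : ℝ) = l3 at k3 ⊢
    generalize Real.log (W : ℝ) = l4 at k4 ⊢
    generalize Real.log (g₁ : ℝ) = l1 at k1 ⊢
    generalize Real.log (g₂ : ℝ) = l2 at k2 ⊢
    linarith
  calc dh ((ρ : K) * y) ≤ d * (Real.log (D : ℝ) + Real.log (1 + (Y + δ))) := hle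
    _ ≤ d * ((Real.log A' + (1 + C₁) * Real.log g₁ + C₁ * Real.log g₂ + Real.log W +
        Real.log (1 + (Y + δ))) * (q : ℝ) ^ (2 * m)) :=
        mul_le_mul_of_nonneg_left h5 (by linarith)
    _ = _ := by ring

end Pool.Agent.U64.DP
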