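import Pool.Agent.H692R2.USS.T5
import Pool.Agent.H692R2.USS.T1
import Pool.Agent.H691R3.Places

/-!
# Degree one primes of a number field, in terms of absolute values
-/

set_option autoImplicit false

namespace Pool.Agent.U64.DP

open NumberField IsDedekindDomain Pool.Agent.H691R3 Pool.Agent.H692R2.USS

/-- There are prime ideals of arbitrarily large prime norm. -/
theorem exists_prime_norm (K : Type) [Field K] [NumberField K] (n : ℕ) :
    ∃ v : HeightOneSpectrum (𝓞 K), (Ideal.absNorm v.asIdeal).Prime ∧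
      n < Ideal.absNorm v.asIdeal := by
  classical
  obtain ⟨c, C, hc, h⟩ := massK bt K
  by_contra hcon
  push Not at hcon
  set B : ℝ := ∑ p ∈ Finset.range (n + 1), (1 : ℝ) / p with hBdef
  have hB : ∀ L : ℕ, 1 ≤ L → c * Real.log L - C ≤ B := by
    intro L hL
    refine (h L hL).trans ?_
    refine Finset.sum_le_sum_of_subset_of_nonneg ?_ (fun _ _ _ => by positivity)
    intro p hp
    rw [Finset.mem_filter] at hp
    obtain ⟨-, hp1, v, hv⟩ := hp
    have := hcon v (hv ▸ hp1)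
    rw [Finset.mem_range]; omega
  have h1 : Filter.Tendsto (fun L : ℕ => c * Real.log L - C) Filter.atTop Filter.atTop :=
    Filter.tendsto_atTop_add_const_right _ _
      ((Real.tendsto_log_atTop.comp tendsto_natCast_atTop_atTop).const_mul_atTop hc)
  obtain ⟨L, hL1, hL2⟩ := ((h1.eventually_gt_atTop B).and (Filter.eventually_ge_atTop 1)).exists
  exact absurd (hB L hL2) (not_le.2 hL1)

/-- Divisors of `p` are squarefree if `p` does not divide the discriminant. -/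
theorem squarefree_of (L : Type) [Field L] [NumberField L] (p : ℕ) (hp : p.Prime)
    (hd : ¬ p ∣ (discr L).natAbs) (I : Ideal (𝓞 L)) (hI : ((p : ℕ) : 𝓞 L) ∈ I) :
    Squarefree I := by
  intro x hx
  have hspan : (Ideal.span {(p : ℤ)}).map (algebraMap ℤ (𝓞 L)) = Ideal.span {((p : ℕ) : 𝓞 L)} := by
    rw [Ideal.map_span, Set.image_singleton]
    simp
  have hle : Ideal.span {((p : ℕ) : 𝓞 L)} ≤ I := by
    rw [Ideal.span_le, Set.singleton_subset_iff]
    exact hI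
  have hm : (Ideal.span {(p : ℤ)}).IsMaximal :=
    PrincipalIdealRing.isMaximal_of_irreducible (Nat.prime_iff_prime_int.1 hp).irreducible
  have h0 : (Ideal.span {(p : ℤ)}) ≠ ⊥ := by
    rw [Ne, Ideal.span_singleton_eq_bot]
    exact_mod_cast hp.ne_zero
  have h1 : x ^ 2 ∣ (Ideal.span {(p : ℤ)}).map (algebraMap ℤ (𝓞 L)) := by
    rw [pow_two, hspan]
    exact hx.trans (Ideal.dvd_iff_le.2 hle)
  have h2 := pow_sub_one_dvd_differentIdeal ℤ x 2 h0 h1
  rw [show 2 - 1 = 1 from rfl, pow_one] at h2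
  have h3 : Ideal.absNorm x ∣ (discr L).natAbs := by
    rw [← NumberField.absNorm_differentIdeal (K := L) (𝒪 := 𝓞 L)]
    exact Ideal.absNorm_dvd_absNorm_of_le (Ideal.dvd_iff_le.1 h2)
  have h4 : Ideal.absNorm x ∣ p ^ Module.finrank ℤ (𝓞 L) := by
    have h5 : Ideal.span {((p : ℕ) : 𝓞 L)} ≤ x :=
      hle.trans (Ideal.dvd_iff_le.1 ((dvd_mul_right x x).trans hx))
    have h6 := Ideal.absNorm_dvd_absNorm_of_le h5
    rwa [Ideal.absNorm_span_singleton, show ((p : ℕ) : 𝓞 L) = algebraMap ℤ (𝓞 L) (p : ℤ) by simp,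
      Algebra.norm_algebraMap, Int.natAbs_pow, Int.natAbs_natCast] at h6
  have h7 : Nat.Coprime (p ^ Module.finrank ℤ (𝓞 L)) (discr L).natAbs :=
    Nat.Coprime.pow_left _ ((Nat.Prime.coprime_iff_not_dvd hp).2 hd)
  have h8 : Ideal.absNorm x = 1 := Nat.eq_one_of_dvd_coprimes h7 h4 h3
  rw [Ideal.absNorm_eq_one_iff] at h8
  rw [h8, ← Ideal.one_eq_top]
  exact isUnit_one

variable {K : Type} [Field K] [NumberField K]

/-- an unramified prime of prime norm `q` -/
structure Good (v : HeightOneSpectrum (𝓞 K)) (q : ℕ) : Prop where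
  prime : q.Prime
  odd : q ≠ 2
  norm : Ideal.absNorm v.asIdeal = q
  disc : ¬ q ∣ (discr K).natAbs

theorem exists_good (K : Type) [Field K] [NumberField K] (n : ℕ) :
    ∃ (v : HeightOneSpectrum (𝓞 K)) (q : ℕ), Good v q ∧ n < q := by
  obtain ⟨v, h1, h2⟩ := exists_prime_norm K (n + 2 + (discr K).natAbs)
  refine ⟨v, _, ⟨h1, by omega, rfl, fun h => ?_⟩, by omega⟩
  have h3 := Nat.le_of_dvd (Int.natAbs_pos.2 (discr_ne_zero K)) h
  omega

theorem fv_int_le (v : HeightOneSpectrum (𝓞 K)) (a : 𝓞 K) : fv v (a : K) ≤ 1 :=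
  FinitePlace.norm_le_one K v a

theorem fv_lt_iff (v : HeightOneSpectrum (𝓞 K)) (a : 𝓞 K) : fv v (a : K) < 1 ↔ a ∈ v.asIdeal :=
  FinitePlace.norm_lt_one_iff_mem K v a

theorem fv_eq_iff (v : HeightOneSpectrum (𝓞 K)) (a : 𝓞 K) : fv v (a : K) = 1 ↔ a ∉ v.asIdeal :=
  FinitePlace.norm_eq_one_iff_notMem K v a

/-- elements of absolute value less than `1` -/
theorem fv_le_inv {v : HeightOneSpectrum (𝓞 K)} {q : ℕ} (h : Good v q) {x : K}
    (hx : fv v x < 1) : fv v x ≤ (q : ℝ)⁻¹ := by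
  have hq : (2 : ℝ) ≤ q := by exact_mod_cast h.prime.two_le
  by_cases h0 : x = 0
  · rw [h0, map_zero]; positivity
  obtain ⟨n, hn⟩ := fv_zpow v h0
  have hN : Nv v = q := by unfold Nv; rw [h.norm]
  rw [hN] at hn
  rw [hn] at hx ⊢
  have h1 : n < 0 := by
    by_contra hcon
    push Not at hcon
    have := one_le_zpow₀ (by linarith : (1 : ℝ) ≤ q) hcon
    linarith
  have h2 : n ≤ -1 := by omega
  calc (q : ℝ) ^ n ≤ (q : ℝ) ^ (-1 : ℤ) := zpow_le_zpow_right₀ (by linarith) h2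
    _ = (q : ℝ)⁻¹ := by rw [zpow_neg_one]

theorem mem_of_good {v : HeightOneSpectrum (𝓞 K)} {q : ℕ} (h : Good v q) :
    ((q : ℕ) : 𝓞 K) ∈ v.asIdeal := by
  have := Ideal.absNorm_mem v.asIdeal
  rwa [h.norm] at this

theorem fv_q {v : HeightOneSpectrum (𝓞 K)} {q : ℕ} (h : Good v q) :
    fv v ((q : ℕ) : K) = (q : ℝ)⁻¹ := by
  have hq0 : ((q : ℕ) : 𝓞 K) ≠ 0 := by exact_mod_cast h.prime.ne_zero
  have h1 := FinitePlace.apply_mul_absNorm_pow_eq_one (FinitePlace.mk v) hq0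
  rw [FinitePlace.maximalIdeal_mk, h.norm] at h1
  have h2 : multiplicity v.asIdeal (Ideal.span {((q : ℕ) : 𝓞 K)}) = 1 := by
    refine multiplicity_eq_of_dvd_of_not_dvd ?_ ?_
    · rw [pow_one, Ideal.dvd_span_singleton]
      exact mem_of_good h
    · intro hd
      have h3 := squarefree_of K q h.prime h.disc (Ideal.span {((q : ℕ) : 𝓞 K)})
        (Ideal.mem_span_singleton_self _)
      have h4 := h3 v.asIdeal (by rwa [← pow_two])
      exact v.isPrime.ne_top (Ideal.isUnit_iff.1 h4)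
  rw [h2, pow_one] at h1
  have h5 : FinitePlace.mk v ((((q : ℕ) : 𝓞 K) : K)) = fv v ((q : ℕ) : K) := by
    rw [fv_apply]; simp
  rw [h5] at h1
  exact eq_inv_of_mul_eq_one_left h1

/-- the residue field is the prime field: integral elements -/
theorem exists_int_sub_mem {v : HeightOneSpectrum (𝓞 K)} {q : ℕ} (h : Good v q) (a : 𝓞 K) :
    ∃ s : ℤ, a - (s : 𝓞 K) ∈ v.asIdeal := by
  have hcard : Nat.card (𝓞 K ⧸ v.asIdeal) = q := by
    rw [← h.norm, Ideal.absNorm_apply, Submodule.cardQuot_apply]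
  have : Fact q.Prime := ⟨h.prime⟩
  have h1 : (Ideal.Quotient.mk v.asIdeal 1) ≠ 0 := by
    rw [Ne, Ideal.Quotient.eq_zero_iff_mem]
    intro h2
    exact v.isPrime.ne_top ((Ideal.eq_top_iff_one _).2 h2)
  have h2 := mem_zmultiples_of_prime_card (G := 𝓞 K ⧸ v.asIdeal) hcard h1
    (g' := Ideal.Quotient.mk v.asIdeal a)
  obtain ⟨s, hs⟩ := AddSubgroup.mem_zmultiples_iff.1 h2
  refine ⟨s, ?_⟩
  rw [← Ideal.Quotient.eq_zero_iff_mem, map_sub, ← hs, sub_eq_zero]
  rw [← map_zsmul, zsmul_eq_mul, mul_one]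

/-- the residue field is the prime field -/
theorem exists_int_sub_lt {v : HeightOneSpectrum (𝓞 K)} {q : ℕ} (h : Good v q) {x : K}
    (hx : fv v x ≤ 1) : ∃ s : ℤ, fv v (x - s) < 1 := by
  obtain ⟨a, b, hb, hab⟩ : ∃ a b : 𝓞 K, b ∉ v.asIdeal ∧ x * (b : K) = (a : K) := by
    obtain ⟨n, d, hnd | hnd⟩ := v.exists_primeCompl_mul_eq_or_mul_eq (K := K) x
    · exact ⟨n, d, d.2, hnd⟩
    · refine ⟨d, n, ?_, hnd⟩
      rw [← fv_eq_iff]
      have h1 : fv v x * fv v (n : K) = 1 := by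
        rw [← map_mul]
        refine (congrArg (fv v) hnd).trans ?_
        exact (fv_eq_iff v (d : 𝓞 K)).2 d.2
      have h2 := fv_int_le v n
      have h3 := (fv v).nonneg x
      have h4 := (fv v).nonneg (n : K)
      nlinarith
  obtain ⟨s, hs⟩ := exists_int_sub_mem h a
  obtain ⟨t, ht⟩ := exists_int_sub_mem h b
  have hqt : ¬ (q : ℤ) ∣ t := by
    rintro ⟨k, rfl⟩
    refine hb ?_
    have h1 : (((q : ℤ) * k : ℤ) : 𝓞 K) ∈ v.asIdeal := by
      push_cast
      exact v.asIdeal.mul_mem_right _ (mem_of_good h)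
    have h2 := v.asIdeal.add_mem ht h1
    rwa [sub_add_cancel] at h2
  have hcop : IsCoprime (q : ℤ) t :=
    (Prime.coprime_iff_not_dvd (Nat.prime_iff_prime_int.1 h.prime)).2 hqt
  obtain ⟨w, u, huw⟩ := hcop
  refine ⟨s * u, ?_⟩
  have hmem : a - b * ((s * u : ℤ) : 𝓞 K) ∈ v.asIdeal := by
    have e : a - b * ((s * u : ℤ) : 𝓞 K) =
        (a - (s : 𝓞 K)) + (s : 𝓞 K) * (((w * q : ℤ) : 𝓞 K)) - (s * u : 𝓞 K) * (b - (t : 𝓞 K)) := by
      have e1 : ((w * q : ℤ) : 𝓞 K) = 1 - (u : 𝓞 K) * t := by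
        have : (w * q : ℤ) = 1 - u * t := by linarith
        rw [this]; push_cast; ring
      rw [e1]; push_cast; ring
    rw [e]
    refine v.asIdeal.sub_mem (v.asIdeal.add_mem hs (v.asIdeal.mul_mem_left _ ?_))
      (v.asIdeal.mul_mem_left _ ht)
    push_cast
    exact v.asIdeal.mul_mem_left _ (mem_of_good h)
  have h5 := (fv_lt_iff v _).2 hmem
  have h6 : ((a - b * ((s * u : ℤ) : 𝓞 K) : 𝓞 K) : K) = (x - ((s * u : ℤ) : K)) * (b : K) := by
    change algebraMap (𝓞 K) K (a - b * ((s * u : ℤ) : 𝓞 K)) = _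
    rw [map_sub, map_mul, map_intCast, sub_mul, hab]
    ring
  rw [h6, map_mul, (fv_eq_iff v b).2 hb, mul_one] at h5
  exact h5

end Pool.Agent.U64.DP
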